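import Pool.Agent.Helper86.EA.E1
import Pool.Agent.Helper86.DZ.V1

set_option autoImplicit false

/-!
# The window property with the contribution of the exceptional zero
-/

open Finset MeasureTheory

namespace Pool.Agent.Helper86.EA

open Pool.Agent.H807R2.Dav
open Pool.Agent.W66L (Xa)
open Pool.Agent.W66
open Pool.Agent.Helper86.PS
open Pool.Agent.Helper86.XS
open Pool.Agent.Helper86.DZ

lemma exp_lip {x y : ℝ} (hx : 0 ≤ x) (hy : 0 ≤ y) : |Real.exp (-x) - Real.exp (-y)| ≤ |x - y| := by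
  wlog h : x ≤ y with H
  · rw [abs_sub_comm, abs_sub_comm x y]
    exact H hy hx (by linarith)
  have h1 : Real.exp (-y) ≤ Real.exp (-x) := Real.exp_le_exp.2 (by linarith)
  rw [abs_of_nonneg (by linarith), abs_of_nonpos (by linarith)]
  have h2 : Real.exp (-y) = Real.exp (-x) * Real.exp (-(y - x)) := by rw [← Real.exp_add]; congr 1; ring
  have h3 : -(y - x) + 1 ≤ Real.exp (-(y - x)) := Real.add_one_le_exp _
  have h4 : Real.exp (-x) ≤ 1 := Real.exp_le_one_iff.2 (by linarith)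
  have h5 : 0 < Real.exp (-x) := Real.exp_pos _
  rw [h2]
  have h6 : Real.exp (-x) * (1 - Real.exp (-(y - x))) ≤ 1 * (y - x) :=
    mul_le_mul h4 (by linarith) (by
      have : Real.exp (-(y - x)) ≤ 1 := Real.exp_le_one_iff.2 (by linarith)
      linarith) zero_le_one
  linarith

lemma rpow_lip {x y η : ℝ} (hx : 1 ≤ x) (hy : 1 ≤ y) (hη : 0 ≤ η) :
    |x ^ (-η) - y ^ (-η)| ≤ η * |Real.log x - Real.log y| := by
  rw [Real.rpow_def_of_pos (by linarith), Real.rpow_def_of_pos (by linarith)]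
  have e1 : Real.log x * -η = -(η * Real.log x) := by ring
  have e2 : Real.log y * -η = -(η * Real.log y) := by ring
  rw [e1, e2]
  refine (exp_lip (mul_nonneg hη (Real.log_nonneg hx)) (mul_nonneg hη (Real.log_nonneg hy))).trans (le_of_eq ?_)
  rw [← mul_sub, abs_mul, abs_of_nonneg hη]

lemma PE_near {h u u0 η : ℝ} (h0 : 0 < h) (hu : h ≤ u) (hu0 : 0 ≤ u0) (hη : 0 ≤ η) :
    ‖PE h u η - (Real.exp (-(η * u0)) : ℝ)‖ ≤ η * (|u - u0| + h) := by
  have hti : Integrable (fun v : ℝ => tri h (u - v)) := by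
    have h3 : Integrable (tri h) := by
      by_contra hc
      have := integral_undef hc
      rw [integral_tri h0] at this
      norm_num at this
    exact h3.comp_sub_left u
  have hone : ∫ v in Set.Ioi (0 : ℝ), tri h (u - v) = 1 := by
    rw [setIntegral_eq_integral_of_forall_compl_eq_zero, integral_sub_left_eq_self (fun v => tri h v), integral_tri h0]
    intro v hv
    rw [Set.mem_Ioi, not_lt] at hv
    apply tri_zero_of h0
    rw [abs_of_nonneg (by linarith)]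
    linarith
  have hcont : Continuous fun v : ℝ => tri h (u - v) := (tri_continuous h).comp (by fun_prop)
  have hi1 : Integrable (fun v : ℝ => Real.exp (-(η * v)) * tri h (u - v)) (volume.restrict (Set.Ioi 0)) := by
    refine hti.integrableOn.mono' ?_ ?_
    · apply Continuous.aestronglyMeasurable
      exact (by fun_prop : Continuous fun v : ℝ => Real.exp (-(η * v))).mul hcont
    · rw [ae_restrict_iff' measurableSet_Ioi]
      refine Filter.Eventually.of_forall fun v hv => ?_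
      rw [Set.mem_Ioi] at hv
      rw [Real.norm_of_nonneg (mul_nonneg (Real.exp_pos _).le (tri_nonneg h0 _))]
      calc Real.exp (-(η * v)) * tri h (u - v) ≤ 1 * tri h (u - v) := by
            apply mul_le_mul_of_nonneg_right _ (tri_nonneg h0 _)
            apply Real.exp_le_one_iff.2
            have := mul_nonneg hη hv.le
            linarith
        _ = _ := one_mul _
  have hi2 : Integrable (fun v : ℝ => Real.exp (-(η * u0)) * tri h (u - v)) (volume.restrict (Set.Ioi 0)) :=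
    (hti.const_mul _).integrableOn
  have hPE : PE h u η = ((∫ v in Set.Ioi (0 : ℝ), Real.exp (-(η * v)) * tri h (u - v) : ℝ) : ℂ) := by
    unfold PE
    exact integral_ofReal (f := fun v : ℝ => Real.exp (-(η * v)) * tri h (u - v))
  have h1 : PE h u η - (Real.exp (-(η * u0)) : ℝ) =
      ((∫ v in Set.Ioi (0 : ℝ), (Real.exp (-(η * v)) * tri h (u - v) - Real.exp (-(η * u0)) * tri h (u - v)) : ℝ) : ℂ) := by
    rw [hPE, integral_sub hi1 hi2, integral_const_mul, hone, mul_one]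
    push_cast
    ring
  rw [h1, Complex.norm_real]
  have h2 : ∀ v ∈ Set.Ioi (0 : ℝ), ‖Real.exp (-(η * v)) * tri h (u - v) - Real.exp (-(η * u0)) * tri h (u - v)‖ ≤
      η * (|u - u0| + h) * tri h (u - v) := by
    intro v hv
    rw [Set.mem_Ioi] at hv
    rw [← sub_mul, norm_mul, Real.norm_of_nonneg (tri_nonneg h0 _), Real.norm_eq_abs]
    rcases le_or_gt h |u - v| with h3 | h3
    · rw [tri_zero_of h0 h3, mul_zero, mul_zero]
    · apply mul_le_mul_of_nonneg_right _ (tri_nonneg h0 _)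
      refine (exp_lip (mul_nonneg hη hv.le) (mul_nonneg hη hu0)).trans ?_
      rw [← mul_sub, abs_mul, abs_of_nonneg hη]
      apply mul_le_mul_of_nonneg_left _ hη
      have h4 : v - u0 = (v - u) + (u - u0) := by ring
      rw [h4]
      refine (abs_add_le _ _).trans ?_
      rw [abs_sub_comm v u]
      linarith
  refine (norm_integral_le_of_norm_le ((hti.const_mul _).integrableOn) ((ae_restrict_iff' measurableSet_Ioi).2
    (Filter.Eventually.of_forall h2))).trans ?_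
  rw [integral_const_mul, hone, mul_one]

/-- short sums, local form -/
lemma short_loc {Q L0 : ℕ} {j : PC} {B : ℝ} {δ : ℂ} (hQ3n : 3 ≤ Q) {y H : ℕ} (hy : Q ^ (L0 + 10) ≤ y)
    (hyH : Real.log (y + H : ℕ) ≤ Q) (hH : y + H ≤ H * Q ^ 6)
    (hW : ∀ u : ℝ, Real.log y ≤ u → u ≤ Real.log (y + H) → ‖WX j.2 (1 / (Q : ℝ) ^ 10) u - δ‖ ≤ B) :
    ‖∑ n ∈ Finset.Ioc y (y + H), fn j n * (ArithmeticFunction.vonMangoldt n : ℂ) - δ * H‖ ≤ (B + 64 / (Q : ℝ) ^ 3) * H := by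
  have hQ3 : (3 : ℝ) ≤ Q := by exact_mod_cast hQ3n
  have hQ0 : (0 : ℝ) < Q := by linarith
  have hQ1' : (1 : ℝ) ≤ Q := by linarith
  have hy1 : 1 ≤ y := le_trans (Nat.one_le_pow _ _ (by omega)) hy
  have hyr : (1 : ℝ) ≤ y := by exact_mod_cast hy1
  have hHr : (0 : ℝ) ≤ H := Nat.cast_nonneg H
  have hlQ : 0 ≤ Real.log Q := Real.log_natCast_nonneg Q
  have hQ10 : (2 : ℝ) ≤ (Q : ℝ) ^ 10 := by
    calc (2 : ℝ) ≤ Q := by linarith
      _ ≤ _ := le_self_pow₀ hQ1' (by norm_num)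
  have h1 := short_one j.2 (h := 1 / (Q : ℝ) ^ 10) (by positivity)
    (by rw [div_le_div_iff₀ (by positivity) (by norm_num)]; linarith) hy1 (H := H) (δ := δ) hW
  have h2 : ∑ n ∈ Finset.Ioc y (y + H), Xa j.2 n =
      ∑ n ∈ Finset.Ioc y (y + H), fn j n * (ArithmeticFunction.vonMangoldt n : ℂ) := rfl
  rw [h2] at h1
  refine h1.trans ?_
  rw [add_mul]
  have hl3 : Real.log (3 * (y + H) : ℕ) ≤ 2 * Q := by
    push_cast at hyH ⊢
    rw [Real.log_mul (by norm_num) (by linarith)]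
    have : Real.log 3 ≤ 3 - 1 := Real.log_le_sub_one_of_pos (by norm_num)
    linarith
  have hl30 : 0 ≤ Real.log (3 * (y + H) : ℕ) := Real.log_natCast_nonneg _
  have hH' : (y : ℝ) + H ≤ H * (Q : ℝ) ^ 6 := by exact_mod_cast hH
  have hyQ : (Q : ℝ) ^ 10 ≤ y := by
    calc (Q : ℝ) ^ 10 ≤ (Q : ℝ) ^ (L0 + 10) := pow_le_pow_right₀ hQ1' (by omega)
      _ ≤ y := by exact_mod_cast hy
  have hHQ : (Q : ℝ) ^ 4 ≤ H := by
    have : (Q : ℝ) ^ 4 * (Q : ℝ) ^ 6 ≤ H * (Q : ℝ) ^ 6 := by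
      calc (Q : ℝ) ^ 4 * (Q : ℝ) ^ 6 = (Q : ℝ) ^ 10 := by ring
        _ ≤ (y : ℝ) := hyQ
        _ ≤ (y : ℝ) + H := by linarith
        _ ≤ _ := hH'
    exact le_of_mul_le_mul_right this (by positivity)
  have hmid : 2 * (1 / (Q : ℝ) ^ 10) * H + 24 * (1 / (Q : ℝ) ^ 10) * (y + H) + 6 ≤ 32 / (Q : ℝ) ^ 4 * H := by
    have e1 : 1 / (Q : ℝ) ^ 10 * (y + H) ≤ 1 / (Q : ℝ) ^ 4 * H := by
      calc 1 / (Q : ℝ) ^ 10 * (y + H) ≤ 1 / (Q : ℝ) ^ 10 * (H * (Q : ℝ) ^ 6) :=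
            mul_le_mul_of_nonneg_left hH' (by positivity)
        _ = _ := by field_simp
    have e2 : 1 / (Q : ℝ) ^ 10 * H ≤ 1 / (Q : ℝ) ^ 10 * (y + H) :=
      mul_le_mul_of_nonneg_left (by linarith) (by positivity)
    have e3 : (1 : ℝ) ≤ 1 / (Q : ℝ) ^ 4 * H := by
      rw [one_div, inv_mul_eq_div, le_div_iff₀ (by positivity)]
      linarith
    have e4 : 32 / (Q : ℝ) ^ 4 * H = 32 * (1 / (Q : ℝ) ^ 4 * H) := by ring
    rw [e4]
    linarith
  calc B * H + Real.log (3 * (y + H) : ℕ) * (2 * (1 / (Q : ℝ) ^ 10) * H + 24 * (1 / (Q : ℝ) ^ 10) * (y + H) + 6)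
      ≤ B * H + 2 * Q * (32 / (Q : ℝ) ^ 4 * H) := by
        have := mul_le_mul hl3 hmid (by positivity) (by positivity)
        linarith
    _ = _ := by field_simp; ring

/-- the short sums of the exceptional character -/
lemma short_E {Q L0 : ℕ} {j : PC} {B η : ℝ} (hη0 : 0 ≤ η) (hη1 : η ≤ 1) (hQ3n : 3 ≤ Q) {y H : ℕ} (hy : Q ^ (L0 + 10) ≤ y)
    (hyH : Real.log (y + H : ℕ) ≤ Q) (hH : y + H ≤ H * Q ^ 6) (hHQ : H * Q ≤ 2 * y)
    (hb : ∀ u : ℝ, L0 * Real.log Q ≤ u → u ≤ Q → ‖WX j.2 (1 / (Q : ℝ) ^ 10) u + PE (1 / (Q : ℝ) ^ 10) u η‖ ≤ B) :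
    ‖∑ n ∈ Finset.Ioc y (y + H), fn j n * (ArithmeticFunction.vonMangoldt n : ℂ) + (((y : ℝ) ^ (-η) : ℝ) : ℂ) * H‖ ≤
      (B + 64 / (Q : ℝ) ^ 3 + 3 / Q) * H := by
  have hQ3 : (3 : ℝ) ≤ Q := by exact_mod_cast hQ3n
  have hQ0 : (0 : ℝ) < Q := by linarith
  have hQ1' : (1 : ℝ) ≤ Q := by linarith
  have hy1 : 1 ≤ y := le_trans (Nat.one_le_pow _ _ (by omega)) hy
  have hyr : (1 : ℝ) ≤ y := by exact_mod_cast hy1
  have hHr : (0 : ℝ) ≤ H := Nat.cast_nonneg H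
  have hlQ : 0 ≤ Real.log Q := Real.log_natCast_nonneg Q
  have hℓ1 : 1 ≤ Real.log Q := by
    rw [Real.le_log_iff_exp_le hQ0]
    linarith [Real.exp_one_lt_d9]
  have hlyQ : ((L0 + 10 : ℕ) : ℝ) * Real.log Q ≤ Real.log y := by
    calc ((L0 + 10 : ℕ) : ℝ) * Real.log Q = Real.log ((Q : ℝ) ^ (L0 + 10)) := by rw [Real.log_pow]
      _ ≤ Real.log y := Real.log_le_log (by positivity) (by exact_mod_cast hy)
  push_cast at hlyQ
  have hL0 : 0 ≤ (L0 : ℝ) * Real.log Q := mul_nonneg (Nat.cast_nonneg _) hlQ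
  have h10 : 1 / (Q : ℝ) ^ 10 ≤ 1 / Q := by
    apply one_div_le_one_div_of_le hQ0
    exact le_self_pow₀ hQ1' (by norm_num)
  have h1Q : 1 / (Q : ℝ) ≤ 1 := by rw [div_le_one hQ0]; linarith
  have hvar : Real.log (y + H) - Real.log y ≤ 2 / Q := by
    rw [← Real.log_div (by linarith) (by linarith)]
    have e1 : ((y : ℝ) + H) / y = 1 + H / y := by field_simp
    have e2 : (H : ℝ) / y ≤ 2 / Q := by
      rw [div_le_div_iff₀ (by linarith) hQ0]
      exact_mod_cast hHQ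
    rw [e1]
    have e3 : 0 ≤ (H : ℝ) / y := by positivity
    have := Real.log_le_sub_one_of_pos (by linarith : 0 < 1 + (H : ℝ) / y)
    linarith
  have h1 := short_loc (j := j) (B := B + 3 / Q) (δ := -(((y : ℝ) ^ (-η) : ℝ) : ℂ)) hQ3n hy hyH hH (by
    intro u hu1 hu2
    have hb1 := hb u (by linarith) (by push_cast at hyH; linarith)
    have hpe := PE_near (h := 1 / (Q : ℝ) ^ 10) (u := u) (u0 := Real.log y) (η := η) (by positivity) (by linarith)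
      (Real.log_nonneg hyr) hη0
    have e1 : (y : ℝ) ^ (-η) = Real.exp (-(η * Real.log y)) := by
      rw [Real.rpow_def_of_pos (by linarith)]; congr 1; ring
    rw [← e1] at hpe
    have e2 : WX j.2 (1 / (Q : ℝ) ^ 10) u - -(((y : ℝ) ^ (-η) : ℝ) : ℂ) =
        (WX j.2 (1 / (Q : ℝ) ^ 10) u + PE (1 / (Q : ℝ) ^ 10) u η) - (PE (1 / (Q : ℝ) ^ 10) u η - (((y : ℝ) ^ (-η) : ℝ) : ℂ)) := by
      ring
    rw [e2]
    refine (norm_sub_le _ _).trans (add_le_add hb1 (hpe.trans ?_))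
    rw [abs_of_nonneg (by linarith)]
    calc η * (u - Real.log y + 1 / (Q : ℝ) ^ 10) ≤ 1 * (2 / Q + 1 / Q) := by
          apply mul_le_mul hη1 (by linarith) _ zero_le_one
          have : 0 ≤ 1 / (Q : ℝ) ^ 10 := by positivity
          linarith
      _ = 3 / Q := by ring)
  rw [neg_mul, sub_neg_eq_add] at h1
  refine h1.trans (le_of_eq ?_)
  ring

/-- the smoothed function of the exceptional character -/
lemma wj_nearE {Q M H L0 : ℕ} {j : PC} {B η : ℝ} (hH : 0 < H) (hB : 0 ≤ B) (hη0 : 0 ≤ η) (hη1 : η ≤ 1) (hQ0 : 0 < Q)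
    (hb : ∀ y : ℕ, Q ^ L0 ≤ y → Real.log (y + H : ℕ) ≤ Q → y + H ≤ H * Q ^ 6 → H * Q ≤ 2 * y →
      ‖∑ n ∈ Ioc y (y + H), fn j n * (ArithmeticFunction.vonMangoldt n : ℂ) + (((y : ℝ) ^ (-η) : ℝ) : ℂ) * H‖ ≤ B * H)
    (hM1 : Real.log M ≤ Q) (hM2 : M ≤ H * Q ^ 6) {n : ℤ} (hn1 : ((Q ^ L0 + H : ℕ) : ℤ) ≤ n) (hn2 : n + H ≤ M)
    (hn3 : (H * Q : ℤ) ≤ 2 * (n - H)) :
    ‖wj M H j n + (((n : ℝ) ^ (-η) : ℝ) : ℂ)‖ ≤ B + 2 / Q := by
  have hH0 : (0 : ℝ) < H := by exact_mod_cast hH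
  have hHc : (H : ℂ) ≠ 0 := by exact_mod_cast hH.ne'
  have hQr : (0 : ℝ) < Q := by exact_mod_cast hQ0
  have h1 : wj M H j n + (((n : ℝ) ^ (-η) : ℝ) : ℂ) =
      1 / (H : ℂ) * ∑ a ∈ range H, (1 / (H : ℂ) * ∑ b ∈ range H, Lj M j (n - a + b) + (((n : ℝ) ^ (-η) : ℝ) : ℂ)) := by
    unfold wj sm
    rw [sum_add_distrib, sum_const, card_range, nsmul_eq_mul, mul_add]
    congr 1
    field_simp
  rw [h1]
  apply norm_avg_le (by positivity)
  intro a ha
  rw [mem_range] at ha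
  have hnn : (0 : ℤ) ≤ n - a - 1 := by
    push_cast at hn1
    have hq0 : (0 : ℤ) ≤ (Q : ℤ) ^ L0 := by positivity
    omega
  obtain ⟨y, hy⟩ : ∃ y : ℕ, (y : ℤ) = n - a - 1 := ⟨(n - a - 1).toNat, Int.toNat_of_nonneg hnn⟩
  have hy1 : Q ^ L0 ≤ y := by
    have : ((Q ^ L0 : ℕ) : ℤ) ≤ y := by rw [hy]; push_cast at hn1 ⊢; omega
    exact_mod_cast this
  have hy2 : y + H ≤ M := by
    have : ((y + H : ℕ) : ℤ) ≤ M := by push_cast; omega
    exact_mod_cast this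
  have hyHQ : H * Q ≤ 2 * y := by
    have : ((H * Q : ℕ) : ℤ) ≤ ((2 * y : ℕ) : ℤ) := by push_cast; omega
    exact_mod_cast this
  have hypos : 1 ≤ y := le_trans (Nat.one_le_pow _ _ hQ0) hy1
  have hyr : (1 : ℝ) ≤ y := by exact_mod_cast hypos
  have h2 := hb y hy1 (by
    refine le_trans ?_ hM1
    apply Real.log_le_log
    · have : 0 < y + H := by omega
      exact_mod_cast this
    · exact_mod_cast hy2) (hy2.trans hM2) hyHQ
  have h3 : ∑ b ∈ range H, Lj M j (n - a + b) = ∑ n ∈ Ioc y (y + H), fn j n * (ArithmeticFunction.vonMangoldt n : ℂ) := by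
    have e1 : Ioc y (y + H) = Ico (y + 1) (y + H + 1) := by ext; simp only [mem_Ioc, mem_Ico]; omega
    rw [e1, sum_Ico_eq_sum_range]
    have e2 : y + H + 1 - (y + 1) = H := by omega
    rw [e2]
    apply sum_congr rfl
    intro b hb'
    rw [mem_range] at hb'
    have e3 : n - a + b = ((y + 1 + b : ℕ) : ℤ) := by push_cast; omega
    rw [e3]
    unfold Lj
    rw [fz_nat, Lam_nat]
    rw [mem_Icc]; omega
  rw [h3]
  have h4 : 1 / (H : ℂ) * ∑ n ∈ Ioc y (y + H), fn j n * (ArithmeticFunction.vonMangoldt n : ℂ) + (((n : ℝ) ^ (-η) : ℝ) : ℂ) =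
      1 / (H : ℂ) * (∑ n ∈ Ioc y (y + H), fn j n * (ArithmeticFunction.vonMangoldt n : ℂ) + (((y : ℝ) ^ (-η) : ℝ) : ℂ) * H) +
        (((n : ℝ) ^ (-η) - (y : ℝ) ^ (-η) : ℝ) : ℂ) := by
    push_cast
    field_simp
    ring
  rw [h4]
  refine (norm_add_le _ _).trans (add_le_add ?_ ?_)
  · rw [norm_mul, norm_div, norm_one, Complex.norm_natCast]
    calc 1 / (H : ℝ) * ‖∑ n ∈ Ioc y (y + H), fn j n * (ArithmeticFunction.vonMangoldt n : ℂ) + (((y : ℝ) ^ (-η) : ℝ) : ℂ) * H‖ ≤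
        1 / (H : ℝ) * (B * H) := by gcongr
      _ = B := by field_simp
  · rw [Complex.norm_real, Real.norm_eq_abs]
    have hny : (y : ℝ) ≤ n := by
      have : (y : ℤ) ≤ n := by omega
      exact_mod_cast this
    have hnH : (n : ℝ) ≤ y + H := by
      have : n ≤ y + H := by omega
      exact_mod_cast this
    refine (rpow_lip (by linarith) hyr hη0).trans ?_
    have e0 : 0 ≤ Real.log n - Real.log y := by
      have := Real.log_le_log (by linarith) hny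
      linarith
    rw [abs_of_nonneg e0]
    have e1 : Real.log n - Real.log y ≤ 2 / Q := by
      rw [← Real.log_div (by linarith) (by linarith)]
      have e2 := Real.log_le_sub_one_of_pos (by have : (0:ℝ) < n := by linarith
                                                positivity : 0 < (n : ℝ) / y)
      refine e2.trans ?_
      have e3 : (n : ℝ) / y - 1 = (n - y) / y := by field_simp
      rw [e3, div_le_div_iff₀ (by linarith) hQr]
      have e4 : ((H : ℝ) * Q) ≤ 2 * y := by exact_mod_cast hyHQ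
      have e5 : ((n : ℝ) - y) * Q ≤ H * Q := mul_le_mul_of_nonneg_right (by linarith) hQr.le
      linarith
    calc η * (Real.log n - Real.log y) ≤ 1 * (2 / Q) := mul_le_mul hη1 e1 e0 zero_le_one
      _ = _ := one_mul _

/-- the window property with a real zero close to one and its contribution -/
def HE (Q M : ℕ) (B : PC → ℝ) (j1 : PC) (g η : ℝ) : Prop :=
  HD Q M B j1 g ∧ ∀ n : ℤ, ((M / Q ^ 3 : ℕ) : ℤ) ≤ n → n + (M / Q ^ 4 : ℕ) ≤ M →
    ‖wj M (M / Q ^ 4) j1 n + (((n : ℝ) ^ (-η) : ℝ) : ℂ)‖ ≤ B j1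

/-- the window property -/
theorem hd_mainE (P : ℕ) (hP : 2 ≤ P) : ∃ θ0 : ℝ, 0 < θ0 ∧ θ0 ≤ 1 / 8 ∧ ∃ L0 : ℕ, ∀ L2 : ℕ, ∃ Q0 : ℕ, ∀ Q : ℕ, Q0 ≤ Q →
    ∀ j1 ∈ fam Q, j1.2 ≠ 1 → j1.2 ^ 2 = 1 → ∀ b : ℝ, b < 1 → j1.2.LFunction b = 0 → (1 - b) * Real.log Q ≤ θ0 →
    (Q : ℝ) ^ (-(1 / 2) : ℝ) ≤ ((1 - b) * Real.log Q) ^ P →
    ∃ B : PC → ℝ, ∑ j ∈ fam Q, B j ≤ 2 * ((1 - b) * Real.log Q) ^ P ∧
    ∀ M : ℕ, Q ^ (L0 + 6) ≤ M → M ≤ Q ^ L2 → HE Q M B j1 ((1 - b) * Real.log Q / 4) (1 - b) := by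
  obtain ⟨θ0, hθ00, hθ08, L0, Q0, hmain⟩ := win_DHE P (by omega)
  refine ⟨θ0, hθ00, hθ08, L0 + 10, fun L2 => ?_⟩
  obtain ⟨Q1, hQ1⟩ := wj_of_short (L0 := L0 + 10) (L2 := L2)
  obtain ⟨Q2, hQ2⟩ := ev_log (L2 : ℝ) 1 (a := 1) one_pos
  refine ⟨Q0 + Q1 + Q2 + 10000, fun Q hQ j1 hj1 hj11 hj12 b hb1 hLb hθ hS => ?_⟩
  obtain ⟨B, hB0, hBs, hBj, hBj1⟩ := hmain Q (by omega) j1 hj1 hj11 hj12 b hb1 hLb hθ hS
  have hQ3n : 3 ≤ Q := by omega
  have hQ3 : (3 : ℝ) ≤ Q := by exact_mod_cast hQ3n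
  have hQ0 : (0 : ℝ) < Q := by linarith
  have hQ1' : (1 : ℝ) ≤ Q := by linarith
  obtain ⟨ℓ, hℓ⟩ : ∃ ℓ : ℝ, ℓ = Real.log Q := ⟨_, rfl⟩
  rw [← hℓ] at hθ hS hBs ⊢
  have hℓ1 : 1 ≤ ℓ := by
    rw [hℓ, Real.le_log_iff_exp_le hQ0]
    linarith [Real.exp_one_lt_d9]
  obtain ⟨θ, hθd⟩ : ∃ θ : ℝ, θ = (1 - b) * ℓ := ⟨_, rfl⟩
  rw [← hθd] at hθ hS hBs ⊢
  have hθpos : 0 < θ := by rw [hθd]; exact mul_pos (by linarith) (by linarith)
  have hθ8 : θ ≤ 1 / 8 := hθ.trans hθ08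
  have hη0 : 0 ≤ 1 - b := by linarith
  have hη1 : 1 - b ≤ 1 := by
    have : (1 - b) * 1 ≤ (1 - b) * ℓ := mul_le_mul_of_nonneg_left hℓ1 hη0
    linarith
  obtain ⟨B', hB'⟩ : ∃ B' : PC → ℝ, B' = fun j => B j + 64 / (Q : ℝ) ^ 3 + 5 / Q * (if j = j1 then 1 else 0) := ⟨_, rfl⟩
  have hB'0 : ∀ j ∈ fam Q, 0 ≤ B' j := by
    intro j hj
    have := hB0 j hj
    rw [hB']
    simp only
    split_ifs <;> positivity
  have hsum : ∑ j ∈ fam Q, B' j ≤ 2 * θ ^ P := by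
    rw [hB']
    simp only
    rw [Finset.sum_add_distrib, Finset.sum_add_distrib, Finset.sum_const, nsmul_eq_mul, ← mul_sum, sum_ite_eq' _ j1, if_pos hj1, mul_one]
    have h1 : ((fam Q).card : ℝ) * (64 / (Q : ℝ) ^ 3) ≤ 64 / Q := by
      calc ((fam Q).card : ℝ) * (64 / (Q : ℝ) ^ 3) ≤ (Q : ℝ) ^ 2 * (64 / (Q : ℝ) ^ 3) :=
            mul_le_mul_of_nonneg_right (card_fam Q) (by positivity)
        _ = 64 / Q := by field_simp
    have h2 : 100 / (Q : ℝ) ≤ (Q : ℝ) ^ (-(1 / 2) : ℝ) := by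
      have h3 : (100 : ℝ) ≤ (Q : ℝ) ^ (1 / 2 : ℝ) := by
        rw [← Real.sqrt_eq_rpow]
        apply Real.le_sqrt_of_sq_le
        have : ((10000 : ℕ) : ℝ) ≤ Q := by exact_mod_cast (by omega : 10000 ≤ Q)
        norm_num at this ⊢
        exact this
      have h4 : (Q : ℝ) ^ (-(1 / 2) : ℝ) = (Q : ℝ) ^ (1 / 2 : ℝ) / Q := by
        nth_rewrite 3 [← Real.rpow_one (Q : ℝ)]
        rw [← Real.rpow_sub hQ0]
        norm_num
      rw [h4]
      exact div_le_div_of_nonneg_right h3 hQ0.le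
    have h5 : 64 / (Q : ℝ) + 5 / Q ≤ 100 / Q := by
      rw [← add_div]
      exact div_le_div_of_nonneg_right (by norm_num) hQ0.le
    linarith
  have hθP : 2 * θ ^ P ≤ θ / 4 := by
    have h1 : θ ^ P ≤ θ ^ 2 := pow_le_pow_of_le_one hθpos.le (by linarith) hP
    nlinarith
  have hB1 : B' j1 ≤ θ / 4 := by
    refine le_trans ?_ hθP
    refine le_trans ?_ hsum
    exact Finset.single_le_sum (f := B') hB'0 hj1
  have hexp : Real.exp (-θ) ≤ 1 - θ / 2 := by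
    have h1 : θ / 2 + 1 ≤ Real.exp (θ / 2) := Real.add_one_le_exp _
    have h2 : Real.exp (-θ) = 1 / (Real.exp (θ / 2)) ^ 2 := by
      rw [← Real.exp_nat_mul, one_div, ← Real.exp_neg]
      congr 1
      push_cast
      ring
    have h3 : 1 + θ ≤ (Real.exp (θ / 2)) ^ 2 := by
      have : (1 + θ / 2) ^ 2 ≤ (Real.exp (θ / 2)) ^ 2 := pow_le_pow_left₀ (by linarith) (by linarith) 2
      nlinarith
    rw [h2, div_le_iff₀ (by positivity)]
    have h4 : 1 ≤ (1 - θ / 2) * (1 + θ) := by nlinarith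
    calc (1 : ℝ) ≤ (1 - θ / 2) * (1 + θ) := h4
      _ ≤ _ := mul_le_mul_of_nonneg_left h3 (by linarith)
  have hBfin : B j1 + 64 / (Q : ℝ) ^ 3 + 3 / Q + 2 / Q = B' j1 := by
    rw [hB']
    simp only [if_true]
    ring
  refine ⟨B', hsum, fun M hM1 hM2 => ?_⟩
  -- the refined estimate
  have hE : ∀ n : ℤ, ((M / Q ^ 3 : ℕ) : ℤ) ≤ n → n + (M / Q ^ 4 : ℕ) ≤ M →
      ‖wj M (M / Q ^ 4) j1 n + (((n : ℝ) ^ (-(1 - b)) : ℝ) : ℂ)‖ ≤ B' j1 ∧ (n : ℝ) ^ (-(1 - b)) ≤ Real.exp (-θ) := by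
    intro n hn1 hn2
    have hQM : ∀ k : ℕ, k ≤ L0 + 10 + 6 → Q ^ k ≤ M := fun k hk => (Nat.pow_le_pow_right (by omega) hk).trans hM1
    have hM0 : (0 : ℝ) < M := by
      have : 0 < M := lt_of_lt_of_le (by positivity) hM1
      exact_mod_cast this
    obtain ⟨H, hH⟩ : ∃ H : ℕ, H = M / Q ^ 4 := ⟨_, rfl⟩
    have hHpos : 0 < H := by rw [hH]; exact Nat.div_pos (hQM 4 (by omega)) (by positivity)
    rw [← hH] at hn2 ⊢
    have hHQ3 : H * Q ≤ M / Q ^ 3 := by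
      rw [Nat.le_div_iff_mul_le (by positivity), hH]
      calc M / Q ^ 4 * Q * Q ^ 3 = Q ^ 4 * (M / Q ^ 4) := by ring
        _ ≤ M := Nat.mul_div_le M _
    have hlow : Q ^ (L0 + 10) + H ≤ M / Q ^ 3 := by
      rw [Nat.le_div_iff_mul_le (by positivity), add_mul]
      have e1 : Q ^ (L0 + 10) * Q ^ 3 * 2 ≤ M := by
        calc Q ^ (L0 + 10) * Q ^ 3 * 2 ≤ Q ^ (L0 + 10) * Q ^ 3 * Q := Nat.mul_le_mul_left _ (by omega)
          _ = Q ^ (L0 + 10 + 4) := by ring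
          _ ≤ M := hQM _ (by omega)
      have e2 : H * Q ^ 3 * 2 ≤ M := by
        calc H * Q ^ 3 * 2 ≤ H * Q ^ 3 * Q := Nat.mul_le_mul_left _ (by omega)
          _ = Q ^ 4 * (M / Q ^ 4) := by rw [hH]; ring
          _ ≤ M := Nat.mul_div_le M _
      omega
    have hn1' : ((Q ^ (L0 + 10) + H : ℕ) : ℤ) ≤ n := le_trans (by exact_mod_cast hlow) hn1
    refine ⟨?_, ?_⟩
    · rw [← hBfin]
      refine wj_nearE (L0 := L0 + 10) hHpos ?_ hη0 hη1 (by omega) (fun y hy1 hy2 hy3 hy4 => ?_) ?_ ?_ hn1' hn2 ?_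
      · have := hB0 j1 hj1
        positivity
      · exact short_E hη0 hη1 hQ3n hy1 hy2 hy3 hy4 hBj1
      · have h1 := hQ2 Q (by omega)
        rw [pow_one, Real.rpow_one] at h1
        refine le_trans ?_ h1
        have : Real.log M ≤ Real.log ((Q : ℝ) ^ L2) := Real.log_le_log hM0 (by exact_mod_cast hM2)
        rwa [Real.log_pow] at this
      · have h1 : M < (H + 1) * Q ^ 4 := by
          rw [hH]
          have := Nat.lt_mul_div_succ M (b := Q ^ 4) (by positivity)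
          calc M < Q ^ 4 * (M / Q ^ 4 + 1) := this
            _ = (M / Q ^ 4 + 1) * Q ^ 4 := by ring
        have h2 : (H + 1) * Q ^ 4 ≤ (H * 2) * Q ^ 4 := Nat.mul_le_mul_right _ (by omega)
        have h3 : (H * 2) * Q ^ 4 ≤ H * Q ^ 6 := by
          have : 2 ≤ Q ^ 2 := by nlinarith
          calc (H * 2) * Q ^ 4 = H * (2 * Q ^ 4) := by ring
            _ ≤ H * (Q ^ 2 * Q ^ 4) := Nat.mul_le_mul_left _ (Nat.mul_le_mul_right _ this)
            _ = H * Q ^ 6 := by ring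
        omega
      · have h1 : ((H * Q : ℕ) : ℤ) ≤ n := le_trans (by exact_mod_cast hHQ3) hn1
        push_cast at h1
        have h2 : (2 * H : ℤ) ≤ H * Q := by
          have : 2 * H ≤ H * Q := by nlinarith
          exact_mod_cast this
        linarith
    · have hQn : (Q : ℝ) ≤ n := by
        have h1 : ((Q : ℕ) : ℤ) ≤ n := by
          refine le_trans ?_ hn1'
          have : Q ≤ Q ^ (L0 + 10) + H := (Nat.le_self_pow (by omega) Q).trans (Nat.le_add_right _ _)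
          exact_mod_cast this
        exact_mod_cast h1
      have h2 : (n : ℝ) ^ (-(1 - b)) ≤ (Q : ℝ) ^ (-(1 - b)) := Real.rpow_le_rpow_of_nonpos hQ0 hQn (by linarith)
      refine h2.trans (le_of_eq ?_)
      rw [Real.rpow_def_of_pos hQ0, ← hℓ, hθd]
      congr 1
      ring
  refine ⟨⟨hj1, hj11, hB'0, fun j hj n hn1 hn2 => ⟨fun hjj => ?_, fun hjj => ?_⟩⟩, fun n hn1 hn2 => (hE n hn1 hn2).1⟩
  · refine hQ1 Q (by omega) j (B' j) (hB'0 j hj) ?_ M hM1 hM2 n hn1 hn2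
    have e1 : B' j = B j + 64 / (Q : ℝ) ^ 3 := by
      rw [hB']
      simp only
      rw [if_neg hjj]
      ring
    rw [e1]
    apply short_gen hQ3n
    intro u hu1 hu2
    apply hBj j hj hjj u _ hu2
    refine le_trans ?_ hu1
    apply mul_le_mul_of_nonneg_right _ (Real.log_natCast_nonneg Q)
    push_cast; linarith
  · subst hjj
    obtain ⟨h1, h2⟩ := hE n hn1 hn2
    have h3 := norm_sub_le (wj M (M / Q ^ 4) j n + (((n : ℝ) ^ (-(1 - b)) : ℝ) : ℂ)) ((((n : ℝ) ^ (-(1 - b)) : ℝ) : ℂ))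
    have hnpos : (0 : ℝ) ≤ (n : ℝ) ^ (-(1 - b)) := by
      apply Real.rpow_nonneg
      have : (0 : ℤ) ≤ n := le_trans (Int.natCast_nonneg _) hn1
      exact_mod_cast this
    rw [add_sub_cancel_right, Complex.norm_real, Real.norm_of_nonneg hnpos] at h3
    linarith

end Pool.Agent.Helper86.EA
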