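import Pool.Agent.Helper86.DZ.M1

set_option autoImplicit false

/-!
# The twisted factor
-/

open Finset

namespace Pool.Agent.Helper86.EA

open Pool.Agent.H807R2.Dav
open Pool.Agent.Helper86.PS
open Pool.Agent.Helper86.XS
open Pool.Agent.Helper86.DZ

/-- the real part of the values of a character -/
noncomputable def fr (j : PC) (x : ℤ) : ℝ := (fz j x).re

lemma fr_eq {j : PC} (h2 : j.2 ^ 2 = 1) (x : ℤ) : fz j x = ((fr j x : ℝ) : ℂ) := by
  obtain ⟨r, hr, _⟩ := fz_real h2 x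
  unfold fr
  rw [hr, Complex.ofReal_re]

lemma fr_abs (j : PC) (x : ℤ) : |fr j x| ≤ 1 := (Complex.abs_re_le_norm _).trans (fz_norm_le j x)

lemma fr_per (j : PC) {x y : ℤ} (h : ((j.1 + 1 : ℕ) : ℤ) ∣ x - y) : fr j x = fr j y := by
  unfold fr
  rw [fz_per j x y h]

/-- the residues modulo `r` at which all the forms are units -/
def twG {s : ℕ} (r : ℕ) (a h : Fin s → ℤ) : Finset ℕ := (range r).filter fun x => ∀ i, Int.gcd (a i * x + h i) r = 1

/-- the mean of the twisted factor -/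
noncomputable def twA {s : ℕ} (j : PC) (y : ℝ) (a h : Fin s → ℤ) : ℝ :=
  (∑ x ∈ twG (j.1 + 1) a h, ∏ i, (1 - y * fr j (a i * x + h i))) / (twG (j.1 + 1) a h).card

lemma gcd_one_iff {r : ℕ} (hr : 0 < r) (x : ℤ) : Int.gcd x r = 1 ↔ ∀ p ∈ r.primeFactors, ¬ (p : ℤ) ∣ x := by
  rw [Int.gcd_eq_natAbs, Int.natAbs_natCast]
  constructor
  · intro h p hp hd
    have hpp := Nat.prime_of_mem_primeFactors hp
    have h1 : p ∣ Nat.gcd x.natAbs r := Nat.dvd_gcd (Int.natCast_dvd.1 hd) (Nat.dvd_of_mem_primeFactors hp)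
    rw [h] at h1
    exact hpp.one_lt.ne' (Nat.dvd_one.1 h1)
  · intro h
    by_contra hc
    obtain ⟨p, hp, hpd⟩ := Nat.exists_prime_and_dvd hc
    refine h p (Nat.mem_primeFactors.2 ⟨hp, hpd.trans (Nat.gcd_dvd_right _ _), hr.ne'⟩) ?_
    exact Int.natCast_dvd.2 (hpd.trans (Nat.gcd_dvd_left _ _))

/-- the local product at the primes dividing `r` -/
lemma prodF {s r : ℕ} (hr : 0 < r) (a h : Fin s → ℤ) (x : ℤ) :
    ∏ p ∈ r.primeFactors, ∏ i, (1 + up p (a i * x + h i)) =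
      if (∀ i, Int.gcd (a i * x + h i) r = 1) then ∏ p ∈ r.primeFactors, ((p : ℝ) / (p - 1)) ^ s else 0 := by
  split_ifs with hc
  · apply prod_congr rfl
    intro p hp
    rw [prod_congr rfl fun i _ => by
      rw [one_add_up (Nat.prime_of_mem_primeFactors hp), if_neg ((gcd_one_iff hr _).1 (hc i) p hp)],
      prod_const, card_univ, Fintype.card_fin]
  · push Not at hc
    obtain ⟨i, hi⟩ := hc
    rw [ne_eq, gcd_one_iff hr] at hi
    push Not at hi
    obtain ⟨p, hp, hd⟩ := hi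
    apply prod_eq_zero hp
    apply prod_eq_zero (mem_univ i)
    rw [one_add_up (Nat.prime_of_mem_primeFactors hp), if_pos hd]

lemma twG_card_shift {s : ℕ} {r : ℕ} (hr : 0 < r) (a h : Fin s → ℤ) {f : ℤ → ℝ} (hf : ∀ x y : ℤ, (r : ℤ) ∣ x - y → f x = f y) :
    ((∑ x ∈ twG r a h, f x : ℝ) : ℂ) = (r : ℂ) * mn r (fun x => (((if (∀ i, Int.gcd (a i * x + h i) r = 1) then f x else 0) : ℝ) : ℂ)) := by
  unfold mn twG
  have hr0 : (r : ℂ) ≠ 0 := by exact_mod_cast hr.ne'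
  rw [sum_filter]
  push_cast
  field_simp

/-- **the identity for the twisted mean** -/
lemma mn_tw {s R : ℕ} {a h : Fin s → ℤ} {j1 : PC} (hR : j1.1 + 1 ≤ R) (y : ℝ) {m0 : ℕ} (hm0 : 0 < m0)
    (hmP : ∀ p ∈ PR R, p ∣ m0) (hmr : j1.1 + 1 ∣ m0) :
    mn m0 (fun x => (((∏ p ∈ PR R, ∏ i, (1 + up p (a i * x + h i))) * ∏ i, (1 - y * fr j1 (a i * x + h i)) : ℝ) : ℂ)) =
      ((twA j1 y a h * SPR R a h : ℝ) : ℂ) := by
  obtain ⟨r, hr⟩ : ∃ r : ℕ, r = j1.1 + 1 := ⟨_, rfl⟩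
  have hr0 : 0 < r := by omega
  obtain ⟨P2, hP2⟩ : ∃ P2 : Finset ℕ, P2 = (PR R).filter (fun p => ¬ p ∣ r) := ⟨_, rfl⟩
  have hP1 : (PR R).filter (fun p => p ∣ r) = r.primeFactors := by
    ext p
    rw [mem_filter, mem_PR, Nat.mem_primeFactors]
    constructor
    · rintro ⟨⟨h1, h2⟩, h3⟩
      exact ⟨h2, h3, hr0.ne'⟩
    · rintro ⟨h1, h2, h3⟩
      exact ⟨⟨(Nat.le_of_dvd hr0 h2).trans (by omega), h1⟩, h2⟩
  have hPRp : ∀ p ∈ PR R, p.Prime := fun p hp => (mem_PR.1 hp).2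
  have hP2p : ∀ p ∈ P2, p.Prime := fun p hp => by
    rw [hP2] at hp
    exact hPRp p (mem_filter.1 hp).1
  obtain ⟨m2, hm2⟩ : ∃ m2 : ℕ, m2 = ∏ p ∈ P2, p := ⟨_, rfl⟩
  have hm20 : 0 < m2 := by rw [hm2]; exact Finset.prod_pos fun p hp => (hP2p p hp).pos
  have hco : Nat.Coprime r m2 := by
    rw [hm2]
    apply Nat.Coprime.prod_right
    intro p hp
    apply Nat.Coprime.symm
    rw [Nat.Prime.coprime_iff_not_dvd (hP2p p hp)]
    rw [hP2] at hp
    exact (mem_filter.1 hp).2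
  obtain ⟨Φ, hΦ⟩ : ∃ Φ : ℤ → ℂ, Φ = fun x => ((∏ p ∈ P2, ∏ i, (1 + up p (a i * x + h i)) : ℝ) : ℂ) := ⟨_, rfl⟩
  obtain ⟨F, hF⟩ : ∃ F : ℝ → ℤ → ℂ, F = fun y x => ((((∏ p ∈ r.primeFactors, ∏ i, (1 + up p (a i * x + h i))) *
    ∏ i, (1 - y * fr j1 (a i * x + h i)) : ℝ)) : ℂ) := ⟨_, rfl⟩
  have hsplit : ∀ y : ℝ, (fun x : ℤ => (((∏ p ∈ PR R, ∏ i, (1 + up p (a i * x + h i))) *
      ∏ i, (1 - y * fr j1 (a i * x + h i)) : ℝ) : ℂ)) = fun x => F y x * Φ x := by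
    intro y
    ext x
    rw [hF, hΦ]
    simp only
    rw [← Complex.ofReal_mul]
    congr 1
    rw [← prod_filter_mul_prod_filter_not (PR R) (fun p => p ∣ r), hP1, ← hP2]
    ring
  have hupper : ∀ (P : Finset ℕ) (m : ℕ), (∀ p ∈ P, p ∣ m) →
      Per m (fun x : ℤ => ((∏ q ∈ P, ∏ i, (1 + up q (a i * x + h i)) : ℝ) : ℂ)) := by
    intro P m hm
    have h1 : (fun x : ℤ => ((∏ q ∈ P, ∏ i, (1 + up q (a i * x + h i)) : ℝ) : ℂ)) =
        fun x => ∏ q ∈ P, ((∏ i, (1 + up q (a i * x + h i)) : ℝ) : ℂ) := by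
      ext x
      rw [Complex.ofReal_prod]
    rw [h1]
    apply Per.prod
    intro q hq
    exact (per_up a h q).mono (hm q hq)
  have hfrper : ∀ (y : ℝ) (m : ℕ), r ∣ m → Per m (fun x : ℤ => ((∏ i, (1 - y * fr j1 (a i * x + h i)) : ℝ) : ℂ)) := by
    intro y m hm x z hxz
    simp only
    congr 1
    apply prod_congr rfl
    intro i _
    rw [fr_per j1 (x := a i * x + h i) (y := a i * z + h i)]
    have e : a i * x + h i - (a i * z + h i) = a i * (x - z) := by ring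
    rw [e, ← hr]
    exact Dvd.dvd.mul_left ((Int.natCast_dvd_natCast.2 hm).trans hxz) _
  have hFper : ∀ y m, r ∣ m → Per m (F y) := by
    intro y m hm
    rw [hF]
    have h1 : (fun x : ℤ => ((((∏ p ∈ r.primeFactors, ∏ i, (1 + up p (a i * x + h i))) *
        ∏ i, (1 - y * fr j1 (a i * x + h i)) : ℝ)) : ℂ)) =
        fun x => (((∏ p ∈ r.primeFactors, ∏ i, (1 + up p (a i * x + h i)) : ℝ)) : ℂ) *
          ((∏ i, (1 - y * fr j1 (a i * x + h i)) : ℝ) : ℂ) := by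
      ext x
      rw [← Complex.ofReal_mul]
    simp only
    rw [h1]
    exact Per.mul (hupper _ m fun p hp => (Nat.dvd_of_mem_primeFactors hp).trans hm) (hfrper y m hm)
  have hΦper : ∀ m, (∀ p ∈ P2, p ∣ m) → Per m Φ := by
    intro m hm
    rw [hΦ]
    exact hupper _ m hm
  have hP2d : ∀ p ∈ P2, p ∣ m2 := fun p hp => by rw [hm2]; exact dvd_prod_of_mem _ hp
  have hP2m : ∀ p ∈ P2, p ∣ m0 := fun p hp => by
    rw [hP2] at hp
    exact hmP p (mem_filter.1 hp).1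
  have hkey : ∀ y : ℝ, mn m0 (fun x => F y x * Φ x) = mn r (F y) * mn m2 Φ := by
    intro y
    rw [← mn_crt hco (hFper y r dvd_rfl) (hΦper m2 hP2d)]
    exact mn_two (Per.mul (hFper y m0 (by rw [hr]; exact hmr)) (hΦper m0 hP2m))
      (Per.mul (hFper y _ (dvd_mul_right r m2)) (hΦper _ fun p hp => Dvd.dvd.mul_left (hP2d p hp) _)) hm0
      (Nat.mul_pos hr0 hm20)
  -- the ratio
  obtain ⟨C, hC⟩ : ∃ C : ℝ, C = ∏ p ∈ r.primeFactors, ((p : ℝ) / (p - 1)) ^ s := ⟨_, rfl⟩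
  have hmnF : ∀ y : ℝ, mn r (F y) = 1 / (r : ℂ) * ((C * ∑ x ∈ twG r a h, ∏ i, (1 - y * fr j1 (a i * x + h i)) : ℝ) : ℂ) := by
    intro y
    unfold mn
    congr 1
    rw [hF]
    simp only
    rw [← Complex.ofReal_sum]
    congr 1
    unfold twG
    rw [sum_filter, mul_sum]
    apply sum_congr rfl
    intro x _
    rw [prodF hr0, ← hC]
    split_ifs
    · rfl
    · ring
  have hratio : mn r (F y) = ((twA j1 y a h : ℝ) : ℂ) * mn r (F 0) := by
    rw [hmnF, hmnF]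
    have h1 : ∑ x ∈ twG r a h, ∏ i, (1 - 0 * fr j1 (a i * x + h i)) = ((twG r a h).card : ℝ) := by
      simp
    rw [h1]
    have h2 : ∑ x ∈ twG r a h, ∏ i, (1 - y * fr j1 (a i * x + h i)) = twA j1 y a h * (twG r a h).card := by
      unfold twA
      rw [← hr]
      rcases Nat.eq_zero_or_pos (twG r a h).card with h0 | h0
      · rw [card_eq_zero] at h0
        rw [h0]
        simp
      · have : ((twG r a h).card : ℝ) ≠ 0 := by exact_mod_cast h0.ne'
        field_simp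
    rw [h2]
    push_cast
    ring
  have hone : mn m0 (fun x => F 0 x * Φ x) = ((SPR R a h : ℝ) : ℂ) := by
    rw [← hsplit]
    have h1 : (fun x : ℤ => (((∏ p ∈ PR R, ∏ i, (1 + up p (a i * x + h i))) *
      ∏ i, (1 - 0 * fr j1 (a i * x + h i)) : ℝ) : ℂ)) = fun x => (((∏ p ∈ PR R, ∏ i, (1 + up p (a i * x + h i))) : ℝ) : ℂ) := by
      ext x
      simp
    rw [h1, mn_fullP hPRp a h hm0 hmP]
    rfl
  rw [hsplit, hkey, hratio, mul_assoc, ← hkey, hone, Complex.ofReal_mul]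

lemma tw_factor {y ρ : ℝ} (hy0 : 0 ≤ y) (hρ : |ρ| ≤ 1) : 1 - y ≤ 1 - y * ρ ∧ 1 - y * ρ ≤ 1 + y := by
  obtain ⟨h1, h2⟩ := abs_le.1 hρ
  constructor <;> nlinarith

lemma twA_bounds {s : ℕ} {a h : Fin s → ℤ} {j1 : PC} {y : ℝ} (hy0 : 0 ≤ y) (hy1 : y ≤ 1)
    (hG : (twG (j1.1 + 1) a h).Nonempty) : (1 - y) ^ s ≤ twA j1 y a h ∧ twA j1 y a h ≤ 2 ^ s := by
  have hc : (0 : ℝ) < (twG (j1.1 + 1) a h).card := by exact_mod_cast card_pos.2 hG
  unfold twA
  rw [le_div_iff₀ hc, div_le_iff₀ hc]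
  constructor
  · rw [mul_comm, ← nsmul_eq_mul]
    apply card_nsmul_le_sum
    intro x _
    calc (1 - y) ^ s = ∏ _i : Fin s, (1 - y) := by rw [prod_const, card_univ, Fintype.card_fin]
      _ ≤ _ := Finset.prod_le_prod (fun _ _ => by linarith) fun i _ => (tw_factor hy0 (fr_abs _ _)).1
  · rw [mul_comm, ← nsmul_eq_mul]
    apply sum_le_card_nsmul
    intro x _
    calc ∏ i, (1 - y * fr j1 (a i * x + h i)) ≤ ∏ _i : Fin s, (2 : ℝ) :=
          Finset.prod_le_prod (fun i _ => by linarith [(tw_factor hy0 (fr_abs j1 (a i * x + h i))).1])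
            fun i _ => by linarith [(tw_factor hy0 (fr_abs j1 (a i * x + h i))).2]
      _ = 2 ^ s := by rw [prod_const, card_univ, Fintype.card_fin]

lemma twA_nonneg {s : ℕ} {a h : Fin s → ℤ} {j1 : PC} {y : ℝ} (hy0 : 0 ≤ y) (hy1 : y ≤ 1) : 0 ≤ twA j1 y a h := by
  unfold twA
  apply div_nonneg _ (Nat.cast_nonneg _)
  apply sum_nonneg
  intro x _
  apply prod_nonneg
  intro i _
  linarith [(tw_factor hy0 (fr_abs j1 (a i * x + h i))).1]

/-- admissibility gives a residue at which all the forms are units -/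
lemma twG_nonempty {s r : ℕ} (hr : 0 < r) {a h : Fin s → ℤ} (hadm : ∀ p : ℕ, p.Prime → ∃ x : ℤ, ∀ i, ¬ (p : ℤ) ∣ a i * x + h i) :
    (twG r a h).Nonempty := by
  choose! w hw using hadm
  -- simultaneous congruences
  have h1 : ∀ P : Finset ℕ, (∀ p ∈ P, p.Prime) → ∃ x : ℤ, ∀ p ∈ P, ((p : ℕ) : ℤ) ∣ x - w p := by
    intro P
    induction P using Finset.induction_on with
    | empty => intro _; exact ⟨0, by simp⟩
    | insert p P hp ih =>
      intro hP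
      obtain ⟨x, hx⟩ := ih fun q hq => hP q (mem_insert_of_mem hq)
      have hpp := hP p (mem_insert_self p P)
      have hco : IsCoprime (((∏ q ∈ P, q : ℕ)) : ℤ) ((p : ℕ) : ℤ) := by
        rw [Nat.isCoprime_iff_coprime]
        apply Nat.Coprime.prod_left
        intro q hq
        apply (Nat.coprime_primes (hP q (mem_insert_of_mem hq)) hpp).2
        rintro rfl
        exact hp hq
      obtain ⟨u, v, huv⟩ := hco
      refine ⟨x + u * ((∏ q ∈ P, q : ℕ) : ℤ) * (w p - x), ?_⟩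
      intro q hq
      rw [mem_insert] at hq
      rcases hq with rfl | hq
      · refine ⟨-(v * (w q - x)), ?_⟩
        have : u * ((∏ q ∈ P, q : ℕ) : ℤ) = 1 - v * q := by linarith
        rw [this]
        ring
      · have h2 : ((q : ℕ) : ℤ) ∣ ((∏ q ∈ P, q : ℕ) : ℤ) := Int.natCast_dvd_natCast.2 (dvd_prod_of_mem _ hq)
        have h3 : x + u * ((∏ q ∈ P, q : ℕ) : ℤ) * (w p - x) - w q = (x - w q) + ((∏ q ∈ P, q : ℕ) : ℤ) * (u * (w p - x)) := by
          ring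
        rw [h3]
        exact dvd_add (hx q hq) (Dvd.dvd.mul_right h2 _)
  obtain ⟨x, hx⟩ := h1 r.primeFactors fun p hp => Nat.prime_of_mem_primeFactors hp
  refine ⟨(x % r).toNat, ?_⟩
  have hr1 : (r : ℤ) ≠ 0 := by exact_mod_cast hr.ne'
  have h0 : 0 ≤ x % r := Int.emod_nonneg x hr1
  have h2 : x % r < r := Int.emod_lt_of_pos x (by exact_mod_cast hr)
  unfold twG
  rw [mem_filter, mem_range]
  refine ⟨by omega, fun i => ?_⟩
  rw [gcd_one_iff hr]
  intro p hp hd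
  have hpp := Nat.prime_of_mem_primeFactors hp
  apply hw p hpp i
  rw [Int.toNat_of_nonneg h0] at hd
  have h3 : (p : ℤ) ∣ x % r - w p := by
    have h4 : (p : ℤ) ∣ x % r - x := by
      have h5 : (p : ℤ) ∣ (r : ℤ) := Int.natCast_dvd_natCast.2 (Nat.dvd_of_mem_primeFactors hp)
      refine h5.trans ?_
      refine ⟨-(x / r), ?_⟩
      have := Int.emod_add_mul_ediv x r
      linarith
    have := dvd_add h4 (hx p hp)
    rwa [sub_add_sub_cancel] at this
  have h6 : a i * w p + h i = (a i * (x % r) + h i) - a i * (x % r - w p) := by ring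
  rw [h6]
  exact dvd_sub hd (Dvd.dvd.mul_left h3 _)

end Pool.Agent.Helper86.EA
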