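import Pool.Agent.Helper86.EA.E3

set_option autoImplicit false

/-!
# The main term with the exceptional zero kept
-/

open Finset

namespace Pool.Agent.Helper86.EA

open Pool.Agent.H807R2.Dav
open Pool.Agent.Helper86.PS
open Pool.Agent.Helper86.XS
open Pool.Agent.Helper86.DZ

lemma prod_close {ι : Type} [DecidableEq ι] (T : Finset ι) {x z : ι → ℝ} {e : ℝ} (he : 0 ≤ e) (hz : ∀ i ∈ T, 0 ≤ z i)
    (h : ∀ i ∈ T, |x i - z i| ≤ e * z i) : |∏ i ∈ T, x i - ∏ i ∈ T, z i| ≤ ((1 + e) ^ T.card - 1) * ∏ i ∈ T, z i := by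
  induction T using Finset.induction_on with
  | empty => simp
  | insert b T hb ih =>
    rw [prod_insert hb, prod_insert hb, card_insert_of_notMem hb, pow_succ]
    have ih' := ih (fun i hi => hz i (mem_insert_of_mem hi)) (fun i hi => h i (mem_insert_of_mem hi))
    have hzb := hz b (mem_insert_self b T)
    have hb1 := h b (mem_insert_self b T)
    have hZ : 0 ≤ ∏ i ∈ T, z i := prod_nonneg fun i hi => hz i (mem_insert_of_mem hi)
    obtain ⟨X, hX⟩ : ∃ X : ℝ, X = ∏ i ∈ T, x i := ⟨_, rfl⟩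
    obtain ⟨W, hW⟩ : ∃ W : ℝ, W = ∏ i ∈ T, z i := ⟨_, rfl⟩
    obtain ⟨E, hE⟩ : ∃ E : ℝ, E = (1 + e) ^ T.card := ⟨_, rfl⟩
    rw [← hX, ← hW, ← hE] at ih'
    rw [← hW] at hZ
    rw [← hX, ← hW, ← hE]
    have h1 : x b * X - z b * W = (x b - z b) * X + z b * (X - W) := by ring
    have h2 : |X| ≤ E * W := by
      have : |X| ≤ |X - W| + |W| := by
        have := abs_add_le (X - W) W
        rwa [sub_add_cancel] at this
      rw [abs_of_nonneg hZ] at this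
      linarith
    rw [h1]
    calc |(x b - z b) * X + z b * (X - W)| ≤ |(x b - z b) * X| + |z b * (X - W)| := abs_add_le _ _
      _ = |x b - z b| * |X| + z b * |X - W| := by rw [abs_mul, abs_mul, abs_of_nonneg hzb]
      _ ≤ (e * z b) * (E * W) + z b * ((E - 1) * W) :=
          add_le_add (mul_le_mul hb1 h2 (abs_nonneg _) (by positivity)) (mul_le_mul_of_nonneg_left ih' hzb)
      _ = (E * (1 + e) - 1) * (z b * W) := by ring

open _root_.Classical in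
/-- the terms of the exceptional character together, exactly -/
lemma tee_eq {s R : ℕ} (hs : 1 ≤ s) {a h : Fin s → ℤ} {j1 : PC} (hj1 : j1.2 ≠ 1) (h2 : j1.2 ^ 2 = 1) {W0 W1 : Fin s → ℝ} {m0 : ℕ}
    (hm0pos : 0 < m0) (hmP : ∀ p ∈ PR R, p ∣ m0) (hmr : j1.1 + 1 ∣ m0) :
    (∑ j ∈ Fintype.piFinset (fun _ : Fin s => ({⟨0, 1⟩, j1} : Finset PC)),
      FM R a h j * ∏ i, (if j i = (⟨0, 1⟩ : PC) then ((W0 i : ℝ) : ℂ) else ((W1 i : ℝ) : ℂ))) =
      mn m0 (fun x => (((∏ p ∈ PR R, ∏ i, (1 + up p (a i * x + h i))) *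
        ∏ i, (W0 i + fr j1 (a i * x + h i) * W1 i) : ℝ) : ℂ)) := by
  have hPRp : ∀ p ∈ PR R, p.Prime := fun p hp => (mem_PR.1 hp).2
  obtain ⟨G, hG⟩ : ∃ G : (Fin s → PC) → ℤ → ℂ, G = fun j x =>
    ((∏ p ∈ PR R, ∏ i, (1 + up p (a i * x + h i)) : ℝ) : ℂ) * ∏ i, cz (j i) (a i * x + h i) := ⟨_, rfl⟩
  have hPerG : ∀ (j : Fin s → PC) (m : ℕ), (∀ p ∈ PR R, p ∣ m) → (∀ i, (j i).1 + 1 ∣ m) → Per m (G j) := by
    intro j m hm1 hm2
    rw [hG]
    apply Per.mul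
    · have h1 : (fun x : ℤ => ((∏ q ∈ PR R, ∏ i, (1 + up q (a i * x + h i)) : ℝ) : ℂ)) =
          fun x => ∏ q ∈ PR R, ((∏ i, (1 + up q (a i * x + h i)) : ℝ) : ℂ) := by
        ext x
        rw [Complex.ofReal_prod]
      rw [h1]
      apply Per.prod
      intro q hq
      exact (per_up a h q).mono (hm1 q hq)
    · apply Per.prod
      intro i _
      exact ((cz_per (j i)).mono (hm2 i)).comp _ _
  have hFM : ∀ j ∈ Fintype.piFinset (fun _ : Fin s => ({⟨0, 1⟩, j1} : Finset PC)), FM R a h j = mn m0 (G j) := by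
    intro j hj
    have e1 : FM R a h j = mn (rr j * ∏ p ∈ TT R j, p) (G j) := by
      unfold FM
      rw [hG]
    rw [e1]
    refine mn_two (hPerG j _ ?_ ?_) (hPerG j _ hmP ?_) (Nat.mul_pos (rr_pos j) (Finset.prod_pos fun p hp => (TT_prime p hp).pos)) hm0pos
    · intro p hp
      by_cases hpr : p ∣ rr j
      · exact Dvd.dvd.mul_right hpr _
      · apply Dvd.dvd.mul_left
        exact dvd_prod_of_mem _ (mem_filter.2 ⟨hp, hpr⟩)
    · intro i
      exact Dvd.dvd.mul_right (dvd_prod_of_mem (fun i => (j i).1 + 1) (mem_univ i)) _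
    · intro i
      have h3 := Fintype.mem_piFinset.1 hj i
      rw [mem_insert, mem_singleton] at h3
      rcases h3 with h4 | h4
      · rw [h4]
        exact one_dvd _
      · rw [h4]
        exact hmr
  have hcz1 : ∀ x : ℤ, cz (⟨0, 1⟩ : PC) x = 1 := by
    intro x
    unfold cz
    rw [fz_triv, map_one]
  have hczj : ∀ x : ℤ, cz j1 x = ((fr j1 x : ℝ) : ℂ) := by
    intro x
    unfold cz
    rw [fr_eq h2, Complex.conj_ofReal]
  have e1 : ∀ j ∈ Fintype.piFinset (fun _ : Fin s => ({⟨0, 1⟩, j1} : Finset PC)),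
      FM R a h j * ∏ i, (if j i = (⟨0, 1⟩ : PC) then ((W0 i : ℝ) : ℂ) else ((W1 i : ℝ) : ℂ)) =
      mn m0 (fun x => (∏ i, (if j i = (⟨0, 1⟩ : PC) then ((W0 i : ℝ) : ℂ) else ((W1 i : ℝ) : ℂ))) * G j x) := by
    intro j hj
    rw [mn_const_mul, hFM j hj, mul_comm]
  rw [sum_congr rfl e1, ← mn_sum]
  congr 1
  ext x
  have e2 : ∀ j : Fin s → PC, (∏ i, (if j i = (⟨0, 1⟩ : PC) then ((W0 i : ℝ) : ℂ) else ((W1 i : ℝ) : ℂ))) * G j x =
      ((∏ p ∈ PR R, ∏ i, (1 + up p (a i * x + h i)) : ℝ) : ℂ) *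
        ∏ i, (cz (j i) (a i * x + h i) * (if j i = (⟨0, 1⟩ : PC) then ((W0 i : ℝ) : ℂ) else ((W1 i : ℝ) : ℂ))) := by
    intro j
    rw [hG]
    simp only
    rw [prod_mul_distrib]
    ring
  rw [sum_congr rfl fun j _ => e2 j, ← mul_sum,
    ← prod_univ_sum (fun _ : Fin s => ({⟨0, 1⟩, j1} : Finset PC)) (fun i l => cz l (a i * x + h i) *
      (if l = (⟨0, 1⟩ : PC) then ((W0 i : ℝ) : ℂ) else ((W1 i : ℝ) : ℂ))), Complex.ofReal_mul, Complex.ofReal_prod univ]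
  congr 1
  apply prod_congr rfl
  intro i _
  rw [sum_pair (triv_ne hj1), if_pos rfl, if_neg (Ne.symm (triv_ne hj1)), hcz1, hczj]
  push_cast
  ring

open _root_.Classical in
/-- the terms of the exceptional character together, two-sided -/
lemma tee_asym {s R : ℕ} (hs : 1 ≤ s) {a h : Fin s → ℤ} {j1 : PC} (hj1 : j1.2 ≠ 1) (h2 : j1.2 ^ 2 = 1) (hR : j1.1 + 1 ≤ R)
    {W0 W1 : Fin s → ℝ} {y e : ℝ} (hy0 : 0 ≤ y) (hy1 : y ≤ 1) (he : 0 ≤ e)
    (hW : ∀ i, ∀ ρ : ℝ, |ρ| ≤ 1 → |(W0 i + ρ * W1 i) - (1 - y * ρ)| ≤ e * (1 - y * ρ)) :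
    ‖(∑ j ∈ Fintype.piFinset (fun _ : Fin s => ({⟨0, 1⟩, j1} : Finset PC)),
      FM R a h j * ∏ i, (if j i = (⟨0, 1⟩ : PC) then ((W0 i : ℝ) : ℂ) else ((W1 i : ℝ) : ℂ))) -
      ((twA j1 y a h * SPR R a h : ℝ) : ℂ)‖ ≤ ((1 + e) ^ s - 1) * (twA j1 y a h * SPR R a h) := by
  obtain ⟨m0, hm0⟩ : ∃ m0 : ℕ, m0 = (j1.1 + 1) * ∏ p ∈ PR R, p := ⟨_, rfl⟩
  have hPRp : ∀ p ∈ PR R, p.Prime := fun p hp => (mem_PR.1 hp).2
  have hm0pos : 0 < m0 := by
    rw [hm0]; exact Nat.mul_pos (Nat.succ_pos _) (Finset.prod_pos fun p hp => (hPRp p hp).pos)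
  have hmP : ∀ p ∈ PR R, p ∣ m0 := fun p hp => by
    rw [hm0]; exact Dvd.dvd.mul_left (dvd_prod_of_mem _ hp) _
  have hmr : j1.1 + 1 ∣ m0 := by rw [hm0]; exact dvd_mul_right _ _
  rw [tee_eq hs hj1 h2 hm0pos hmP hmr]
  have h3 := mn_tw (s := s) (R := R) (a := a) (h := h) (j1 := j1) hR y hm0pos hmP hmr
  have h4 : ((1 + e) ^ s - 1) * (twA j1 y a h * SPR R a h) =
      (mn m0 (fun x => ((((1 + e) ^ s - 1) * ((∏ p ∈ PR R, ∏ i, (1 + up p (a i * x + h i))) *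
        ∏ i, (1 - y * fr j1 (a i * x + h i))) : ℝ) : ℂ))).re := by
    have e1 : (fun x : ℤ => ((((1 + e) ^ s - 1) * ((∏ p ∈ PR R, ∏ i, (1 + up p (a i * x + h i))) *
        ∏ i, (1 - y * fr j1 (a i * x + h i))) : ℝ) : ℂ)) =
        fun x : ℤ => (((1 + e) ^ s - 1 : ℝ) : ℂ) * (((∏ p ∈ PR R, ∏ i, (1 + up p (a i * x + h i))) *
          ∏ i, (1 - y * fr j1 (a i * x + h i)) : ℝ) : ℂ) := by
      ext x
      rw [← Complex.ofReal_mul]
    rw [e1, mn_const_mul, h3, ← Complex.ofReal_mul, Complex.ofReal_re]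
  rw [h4, ← h3]
  have h5 : mn m0 (fun x => (((∏ p ∈ PR R, ∏ i, (1 + up p (a i * x + h i))) *
        ∏ i, (W0 i + fr j1 (a i * x + h i) * W1 i) : ℝ) : ℂ)) -
      mn m0 (fun x => (((∏ p ∈ PR R, ∏ i, (1 + up p (a i * x + h i))) * ∏ i, (1 - y * fr j1 (a i * x + h i)) : ℝ) : ℂ)) =
      mn m0 (fun x => (((∏ p ∈ PR R, ∏ i, (1 + up p (a i * x + h i))) *
        (∏ i, (W0 i + fr j1 (a i * x + h i) * W1 i) - ∏ i, (1 - y * fr j1 (a i * x + h i))) : ℝ) : ℂ)) := by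
    unfold mn
    rw [← mul_sub, ← sum_sub_distrib]
    congr 1
    apply sum_congr rfl
    intro x _
    push_cast
    ring
  rw [h5]
  apply norm_mn_le
  intro x
  have h6 : 0 ≤ ∏ p ∈ PR R, ∏ i, (1 + up p (a i * x + h i)) :=
    prod_nonneg fun q hq => prod_nonneg fun i _ => one_add_up_nonneg (hPRp q hq) _
  rw [Complex.norm_real, Real.norm_eq_abs, abs_mul, abs_of_nonneg h6]
  have h7 := prod_close (univ : Finset (Fin s)) (x := fun i => W0 i + fr j1 (a i * x + h i) * W1 i)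
    (z := fun i => 1 - y * fr j1 (a i * x + h i)) he (fun i _ => by
      linarith [(tw_factor hy0 (fr_abs j1 (a i * x + h i))).1]) (fun i _ => hW i _ (fr_abs _ _))
  rw [card_univ, Fintype.card_fin] at h7
  calc _ ≤ (∏ p ∈ PR R, ∏ i, (1 + up p (a i * x + h i))) * (((1 + e) ^ s - 1) * ∏ i, (1 - y * fr j1 (a i * x + h i))) :=
        mul_le_mul_of_nonneg_left h7 h6
    _ = _ := by ring

open _root_.Classical in
/-- **the main term with the exceptional zero kept**, explicit form -/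
lemma main_asymE {s : ℕ} (hs : 1 ≤ s) {Z : ℝ} (hZ : ∀ T : Finset ℕ, ∑ p ∈ T, (p : ℝ) ^ (-(3 / 2) : ℝ) ≤ Z)
    {a h : Fin s → ℤ} (ha : ∀ i, a i ≠ 0) (hΔ : Del a h ≠ 0) {Q R M H : ℕ} (hQ : 1 ≤ Q) (hQR : Q ≤ R) {B : PC → ℝ}
    {j1 : PC} (hj1 : j1 ∈ fam Q) (hj11 : j1.2 ≠ 1) (hj12 : j1.2 ^ 2 = 1)
    (hB : ∀ j ∈ fam Q, 0 ≤ B j) {ε e e3 g y : ℝ} (hBs : ∑ j ∈ fam Q, B j ≤ ε) (hε1 : ε ≤ 1) (hg : 0 ≤ g)
    (hy0 : 0 ≤ y) (hy1 : y ≤ 1) (he0 : 0 ≤ e) (he : 2 * ε + e3 ≤ e * (1 - y)) {u v : ℤ}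
    (hw : ∀ n ∈ Ico u v, ∀ i, ∀ j ∈ fam Q, (j ≠ j1 → ‖wj M H j (a i * n + h i) - dl j‖ ≤ B j) ∧
      (j = j1 → ‖wj M H j (a i * n + h i)‖ ≤ 1 - g))
    (hw1 : ∀ n ∈ Ico u v, ∀ i, ‖wj M H j1 (a i * n + h i) + ((y : ℝ) : ℂ)‖ ≤ B j1 + e3)
    {Lg A : ℝ} (h1 : 1 ≤ Lg) (h2 : Real.log M ≤ Lg) (hA : 0 ≤ A) (haA : ∀ i, |((a i : ℤ) : ℝ)| ≤ A) {τ : ℝ}
    (hτ : τ = tau s Q R (∏ i, (a i).natAbs) Z (Del a h).natAbs) :
    ‖∑ n ∈ Ico u v, ∏ i, LB Q R M H (a i * n + h i) - ((twA j1 y a h * SPR R a h * (Ico u v).card : ℝ) : ℂ)‖ ≤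
      (Ico u v).card * (((1 + e) ^ s - 1) * (twA j1 y a h * SPR R a h) +
        ((SPR R a h + τ) * ((3 + ε) ^ s - 3 ^ s) + 3 ^ s * τ)) +
      ((Q : ℝ) ^ 2) ^ s * ((R : ℝ) ^ s * (2 * (Q * R : ℝ) ^ s * Lg ^ s + (Ico u v).card * ((Q * R : ℝ) ^ s *
        (s * (2 * Lg / H * A) * Lg ^ s)))) := by
  have hR : 1 ≤ R := hQ.trans hQR
  have hexp := main_expand (s := s) (Q := Q) (R := R) (M := M) (H := H) (a := a) (h := h) h1 h2 hA haA u v
  have hε : 0 ≤ ε := (sum_nonneg hB).trans hBs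
  have hτ0 : 0 ≤ τ := by rw [hτ]; unfold tau; positivity
  have hSP := SPR_nonneg R a h
  have hmu : ∀ j ∈ FT_ s Q, ‖mu R a h j‖ ≤ SPR R a h + τ := by
    intro j hj
    rw [hτ]; exact (mu_bound hs hZ ha hΔ hR hj).1
  have htm : (⟨0, 1⟩ : PC) ∈ fam Q := triv_mem hQ
  obtain ⟨T, hT⟩ : ∃ T : Finset PC, T = {⟨0, 1⟩, j1} := ⟨_, rfl⟩
  have hTf : T ⊆ fam Q := by
    rw [hT]
    intro x hx
    rw [mem_insert, mem_singleton] at hx
    rcases hx with rfl | rfl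
    · exact htm
    · exact hj1
  have hBt : B ⟨0, 1⟩ ≤ ε := (single_le_sum hB htm).trans hBs
  have hBj : B j1 ≤ ε := (single_le_sum hB hj1).trans hBs
  have hdt : dl (⟨0, 1⟩ : PC) = 1 := by unfold dl; rw [if_pos rfl]
  -- the bounds
  obtain ⟨c, hc⟩ : ∃ c : PC → ℝ, c = fun j => if j = (⟨0, 1⟩ : PC) then 2 else if j = j1 then 1 else B j := ⟨_, rfl⟩
  have hc0 : ∀ j ∈ fam Q, 0 ≤ c j := by
    intro j hj
    rw [hc]
    simp only
    have := hB j hj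
    split_ifs <;> linarith
  have hcT : ∑ j ∈ T, c j = 3 := by
    rw [hT, sum_pair (triv_ne hj11), hc]
    simp only [if_true]
    rw [if_neg (Ne.symm (triv_ne hj11))]
    norm_num
  have hcO : ∑ j ∈ fam Q \ T, c j ≤ ε := by
    refine le_trans ?_ hBs
    have e1 : ∑ j ∈ fam Q \ T, c j = ∑ j ∈ fam Q \ T, B j := by
      apply sum_congr rfl
      intro j hj
      rw [mem_sdiff, hT, mem_insert, mem_singleton] at hj
      push Not at hj
      rw [hc]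
      simp only
      rw [if_neg hj.2.1, if_neg hj.2.2]
    rw [e1]
    exact sum_le_sum_of_subset_of_nonneg sdiff_subset fun j hj _ => hB j hj
  have hwc : ∀ n ∈ Ico u v, ∀ i, ∀ j ∈ fam Q, ‖wj M H j (a i * n + h i)‖ ≤ c j := by
    intro n hn i j hj
    obtain ⟨w1, w2⟩ := hw n hn i j hj
    rw [hc]
    simp only
    by_cases hj0 : j = (⟨0, 1⟩ : PC)
    · rw [if_pos hj0]
      have h3 := w1 (by rw [hj0]; exact triv_ne hj11)
      rw [hj0, hdt] at h3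
      rw [hj0]
      have h4 := norm_add_le (wj M H ⟨0, 1⟩ (a i * n + h i) - 1) 1
      rw [sub_add_cancel, norm_one] at h4
      linarith
    · rw [if_neg hj0]
      by_cases hjj : j = j1
      · rw [if_pos hjj]
        linarith [w2 hjj]
      · rw [if_neg hjj]
        have h3 := w1 hjj
        have h5 : dl j = 0 := by
          unfold dl
          rw [if_neg]
          intro h6
          exact hj0 (trivial_fam hj h6)
        rwa [h5, sub_zero] at h3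
  -- the pointwise bound
  have hpt : ∀ n ∈ Ico u v, ‖∑ j ∈ FT_ s Q, mu R a h j * WW M H a h j n - ((twA j1 y a h * SPR R a h : ℝ) : ℂ)‖ ≤
      ((1 + e) ^ s - 1) * (twA j1 y a h * SPR R a h) + ((SPR R a h + τ) * ((3 + ε) ^ s - 3 ^ s) + 3 ^ s * τ) := by
    intro n hn
    have hsub : Fintype.piFinset (fun _ : Fin s => T) ⊆ FT_ s Q := Fintype.piFinset_subset _ _ fun _ => hTf
    rw [← sum_sdiff hsub]
    have p1 : ‖∑ j ∈ FT_ s Q \ Fintype.piFinset (fun _ : Fin s => T), mu R a h j * WW M H a h j n‖ ≤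
        (SPR R a h + τ) * ((3 + ε) ^ s - 3 ^ s) := by
      have e5 : ∀ j ∈ FT_ s Q \ Fintype.piFinset (fun _ : Fin s => T), ‖mu R a h j * WW M H a h j n‖ ≤
          (SPR R a h + τ) * ∏ i, c (j i) := by
        intro j hj
        rw [mem_sdiff] at hj
        rw [norm_mul]
        apply mul_le_mul (hmu j hj.1) _ (norm_nonneg _) (by positivity)
        unfold Pool.Agent.Helper86.PS.WW
        rw [norm_prod]
        exact Finset.prod_le_prod (fun _ _ => norm_nonneg _) fun i _ => hwc n hn i (j i) (Fintype.mem_piFinset.1 hj.1 i)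
      refine (norm_sum_le_of_le _ e5).trans ?_
      rw [← mul_sum]
      apply mul_le_mul_of_nonneg_left _ (by positivity)
      have e6 : ∑ j ∈ FT_ s Q \ Fintype.piFinset (fun _ : Fin s => T), ∏ i, c (j i) =
          (3 + ∑ j ∈ fam Q \ T, c j) ^ s - 3 ^ s := by
        have e7 : ∑ j ∈ FT_ s Q, ∏ i, c (j i) = (3 + ∑ j ∈ fam Q \ T, c j) ^ s := by
          unfold FT_
          rw [← prod_univ_sum (fun _ : Fin s => fam Q) (fun _ j => c j), ← sum_sdiff hTf, hcT]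
          simp only [prod_const, card_univ, Fintype.card_fin]
          rw [add_comm]
        have e8 : ∑ j ∈ Fintype.piFinset (fun _ : Fin s => T), ∏ i, c (j i) = 3 ^ s := by
          rw [← prod_univ_sum (fun _ : Fin s => T) (fun _ j => c j), hcT]
          simp only [prod_const, card_univ, Fintype.card_fin]
        have e9 := sum_sdiff (f := fun j : Fin s → PC => ∏ i, c (j i)) hsub
        rw [e7, e8] at e9
        linarith
      rw [e6]
      have h3 : 0 ≤ ∑ j ∈ fam Q \ T, c j := sum_nonneg fun j hj => hc0 j (mem_sdiff.1 hj).1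
      exact pow_diff_mono (by norm_num) le_rfl h3 hcO s
    have p2 : ‖∑ j ∈ Fintype.piFinset (fun _ : Fin s => T), mu R a h j * WW M H a h j n -
        ∑ j ∈ Fintype.piFinset (fun _ : Fin s => T), FM R a h j * WW M H a h j n‖ ≤ 3 ^ s * τ := by
      rw [← sum_sub_distrib]
      have e5 : ∀ j ∈ Fintype.piFinset (fun _ : Fin s => T), ‖mu R a h j * WW M H a h j n - FM R a h j * WW M H a h j n‖ ≤
          τ * ∏ i, c (j i) := by
        intro j hj
        rw [← sub_mul, norm_mul]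
        have h3 : ‖mu R a h j - FM R a h j‖ ≤ τ := by
          rw [hτ]; exact mu_sub_full hs hZ ha hΔ hR (hsub hj)
        apply mul_le_mul h3 _ (norm_nonneg _) hτ0
        unfold Pool.Agent.Helper86.PS.WW
        rw [norm_prod]
        exact Finset.prod_le_prod (fun _ _ => norm_nonneg _) fun i _ => hwc n hn i (j i) (hTf (Fintype.mem_piFinset.1 hj i))
      refine (norm_sum_le_of_le _ e5).trans ?_
      rw [← mul_sum, ← prod_univ_sum (fun _ : Fin s => T) (fun _ j => c j), hcT]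
      simp only [prod_const, card_univ, Fintype.card_fin]
      rw [mul_comm]
    have p3 : ‖∑ j ∈ Fintype.piFinset (fun _ : Fin s => T), FM R a h j * WW M H a h j n -
        ((twA j1 y a h * SPR R a h : ℝ) : ℂ)‖ ≤ ((1 + e) ^ s - 1) * (twA j1 y a h * SPR R a h) := by
      have t2 : ((⟨0, 1⟩ : PC)).2 ^ 2 = 1 := one_pow 2
      choose W0 hW0 using fun i : Fin s => wj_real t2 M H (a i * n + h i)
      choose W1 hW1 using fun i : Fin s => wj_real hj12 M H (a i * n + h i)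
      have h3 := tee_asym (R := R) (a := a) (h := h) hs hj11 hj12 ((mem_fam.1 hj1).1.trans hQR) (W0 := W0) (W1 := W1)
        (y := y) (e := e) hy0 hy1 he0 (by
        intro i ρ hρ
        have w1 := (hw n hn i _ htm).1 (triv_ne hj11)
        have w2 := hw1 n hn i
        rw [hW0 i, hdt] at w1
        rw [hW1 i, ← Complex.ofReal_add, Complex.norm_real, Real.norm_eq_abs] at w2
        have e1 : ((W0 i : ℝ) : ℂ) - 1 = ((W0 i - 1 : ℝ) : ℂ) := by push_cast; rfl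
        rw [e1, Complex.norm_real, Real.norm_eq_abs] at w1
        have e2 : W0 i + ρ * W1 i - (1 - y * ρ) = (W0 i - 1) + ρ * (W1 i + y) := by ring
        rw [e2]
        have e4 : |ρ * (W1 i + y)| ≤ B j1 + e3 := by
          rw [abs_mul]
          calc |ρ| * |W1 i + y| ≤ 1 * |W1 i + y| := mul_le_mul_of_nonneg_right hρ (abs_nonneg _)
            _ = |W1 i + y| := one_mul _
            _ ≤ _ := w2
        refine (abs_add_le _ _).trans ?_
        have e5 : e * (1 - y) ≤ e * (1 - y * ρ) := mul_le_mul_of_nonneg_left (tw_factor hy0 hρ).1 he0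
        linarith)
      refine le_trans (le_of_eq ?_) h3
      congr 2
      rw [hT]
      apply sum_congr rfl
      intro j hj
      congr 1
      unfold Pool.Agent.Helper86.PS.WW
      apply prod_congr rfl
      intro i _
      have h4 := Fintype.mem_piFinset.1 hj i
      rw [mem_insert, mem_singleton] at h4
      by_cases h5 : j i = (⟨0, 1⟩ : PC)
      · rw [if_pos h5, h5, hW0]
      · rw [if_neg h5, h4.resolve_left h5, hW1]
    obtain ⟨X1, hX1⟩ : ∃ X1 : ℂ, X1 = ∑ j ∈ FT_ s Q \ Fintype.piFinset (fun _ : Fin s => T), mu R a h j * WW M H a h j n := ⟨_, rfl⟩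
    obtain ⟨X2, hX2⟩ : ∃ X2 : ℂ, X2 = ∑ j ∈ Fintype.piFinset (fun _ : Fin s => T), mu R a h j * WW M H a h j n := ⟨_, rfl⟩
    obtain ⟨X3, hX3⟩ : ∃ X3 : ℂ, X3 = ∑ j ∈ Fintype.piFinset (fun _ : Fin s => T), FM R a h j * WW M H a h j n := ⟨_, rfl⟩
    rw [← hX1] at p1 ⊢
    rw [← hX2] at p2 ⊢
    rw [← hX3] at p2 p3
    have e6 : X1 + X2 - ((twA j1 y a h * SPR R a h : ℝ) : ℂ) = X1 + (X2 - X3) + (X3 - ((twA j1 y a h * SPR R a h : ℝ) : ℂ)) := by ring
    rw [e6]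
    have q1 := norm_add_le (X1 + (X2 - X3)) (X3 - ((twA j1 y a h * SPR R a h : ℝ) : ℂ))
    have q2 := norm_add_le X1 (X2 - X3)
    linarith
  have hsumpt : ‖∑ j ∈ FT_ s Q, mu R a h j * ∑ n ∈ Ico u v, WW M H a h j n -
      ((twA j1 y a h * SPR R a h * (Ico u v).card : ℝ) : ℂ)‖ ≤
      (Ico u v).card * (((1 + e) ^ s - 1) * (twA j1 y a h * SPR R a h) +
        ((SPR R a h + τ) * ((3 + ε) ^ s - 3 ^ s) + 3 ^ s * τ)) := by
    have e1 : ∑ j ∈ FT_ s Q, mu R a h j * ∑ n ∈ Ico u v, WW M H a h j n - ((twA j1 y a h * SPR R a h * (Ico u v).card : ℝ) : ℂ) =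
        ∑ n ∈ Ico u v, (∑ j ∈ FT_ s Q, mu R a h j * WW M H a h j n - ((twA j1 y a h * SPR R a h : ℝ) : ℂ)) := by
      rw [sum_sub_distrib, sum_const, nsmul_eq_mul]
      congr 1
      · rw [sum_comm]
        apply sum_congr rfl
        intro j _
        rw [mul_sum]
      · push_cast
        ring
    rw [e1]
    refine (norm_sum_le_of_le _ hpt).trans ?_
    rw [sum_const, nsmul_eq_mul]
  have h9 : ∑ n ∈ Ico u v, ∏ i, LB Q R M H (a i * n + h i) - ((twA j1 y a h * SPR R a h * (Ico u v).card : ℝ) : ℂ) =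
      (∑ n ∈ Ico u v, ∏ i, LB Q R M H (a i * n + h i) - ∑ j ∈ FT_ s Q, mu R a h j * ∑ n ∈ Ico u v, WW M H a h j n) +
      (∑ j ∈ FT_ s Q, mu R a h j * ∑ n ∈ Ico u v, WW M H a h j n - ((twA j1 y a h * SPR R a h * (Ico u v).card : ℝ) : ℂ)) := by
    ring
  rw [h9]
  refine (norm_add_le _ _).trans ?_
  have h10 : ‖∑ n ∈ Ico u v, ∏ i, LB Q R M H (a i * n + h i) - ∑ j ∈ FT_ s Q, mu R a h j * ∑ n ∈ Ico u v, WW M H a h j n‖ ≤
      ((Q : ℝ) ^ 2) ^ s * ((R : ℝ) ^ s * (2 * (Q * R : ℝ) ^ s * Lg ^ s + (Ico u v).card * ((Q * R : ℝ) ^ s *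
        (s * (2 * Lg / H * A) * Lg ^ s)))) := by
    first
      | exact hexp
      | (rw [norm_sub_rev]; exact hexp)
  linarith

end Pool.Agent.Helper86.EA
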