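import Pool.Agent.Helper86.EA.E5
import Pool.Agent.Helper86.UA.U4

set_option autoImplicit false

/-!
# One good vector of shifts, asymptotic formula with the exceptional zero kept
-/

open Finset Filter Topology

namespace Pool.Agent.Helper86.EA

open Pool.Agent.H807R2.Dav hiding KK
open Pool.Agent.Helper86.PS
open Pool.Agent.Helper86.XS
open Pool.Agent.Helper86.DZ
open Pool.Agent.Helper86.UA

lemma adm_of_nuP {s : ℕ} {a h : Fin s → ℤ} (hadm : ∀ p : ℕ, p.Prime → nuP a h p < p) :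
    ∀ p : ℕ, p.Prime → ∃ x : ℤ, ∀ i, ¬ (p : ℤ) ∣ a i * x + h i := by
  intro p hp
  by_contra hc
  push Not at hc
  have h1 := hadm p hp
  unfold nuP at h1
  have h2 : (range p).filter (fun x : ℕ => ∃ i, (p : ℤ) ∣ a i * (x : ℤ) + h i) = range p :=
    filter_true_of_mem fun x _ => hc (x : ℤ)
  rw [h2, card_range] at h1
  exact lt_irrefl _ h1

set_option maxHeartbeats 16000000 in
theorem per_hEU (s : ℕ) (hs : 1 ≤ s) {κ : ℝ} (hκ0 : 0 < κ) (hκ : κ ≤ 1 / 10) (L1 L2 : ℕ)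
    (hL1 : lE s ≤ L1) (hL1κ : 16 * (s : ℝ) ≤ κ * L1) : ∃ Q0 : ℕ, ∀ Q : ℕ, Q0 ≤ Q →
    ∀ A : ℕ, (A + 1) ^ (64 * (s + 2) ^ 2) ≤ Q → ∀ N : ℕ, Q ^ L1 ≤ N → N ≤ Q ^ L2 →
    ∀ B : PC → ℝ, ∀ j1 : PC, ∀ g η : ℝ, HE Q ((4 * A + 1) * N) B j1 g η → j1.2 ^ 2 = 1 → 0 ≤ g →
    ∀ ε' : ℝ, ∑ j ∈ fam Q, B j ≤ ε' → ε' ≤ 1 → ∀ y e e3 : ℝ, 0 ≤ y → y ≤ 1 → 0 ≤ e → 2 * ε' + e3 ≤ e * (1 - y) →
    (∀ n : ℤ, ((((4 * A + 1) * N) / Q ^ 3 : ℕ) : ℤ) ≤ n → n ≤ (((4 * A + 1) * N : ℕ) : ℤ) → |(n : ℝ) ^ (-η) - y| ≤ e3) →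
    (1 + e) ^ s - 1 ≤ κ / 8 → (3 + ε') ^ s - 3 ^ s ≤ (1 - y) ^ s * (κ / 16) → 1 ≤ (1 - y) ^ s * qq Q →
    ∀ a h : Fin s → ℤ, (∀ i, a i ≠ 0) → (∀ i, |a i| ≤ A) → (∀ i, |h i| ≤ 2 * A * N) → Del a h ≠ 0 →
    (∀ p : ℕ, p.Prime → nuP a h p < p) →
    (∀ k1 k2 : ℤ, |k1| ≤ 2 * KK Q → |k2| ≤ 2 * KK Q →
      ‖DI Q ((4 * A + 1) * N) a h (k1 * cellG Q N) (k2 * cellG Q N)‖ ≤ N / qq Q ^ 4) →
    ∀ S : ℝ, HasProd (fun p : Nat.Primes => facP a h (p : ℕ)) S → ∀ u v : ℤ, -(2 * N : ℤ) ≤ u → v ≤ 2 * N →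
    (N : ℝ) / qq Q ≤ ((v - u : ℤ) : ℝ) → (∀ n ∈ Ico u v, ∀ i, 1 ≤ a i * n + h i) →
    |(pc a h u v : ℝ) - twA j1 y a h * S * (((v - u : ℤ) : ℝ) / Real.log N ^ s)| ≤
      10 * κ * (twA j1 y a h * S * (((v - u : ℤ) : ℝ) / Real.log N ^ s)) := by
  have hsr : (1 : ℝ) ≤ s := by exact_mod_cast hs
  have h3s : (1 : ℝ) ≤ 3 ^ s := one_le_pow₀ (by norm_num)
  obtain ⟨c1, hc1⟩ : ∃ c1 : ℝ, c1 = 64 * 3 ^ s + 38 + 4 * s + 24 * s * (L2 + 1) := ⟨_, rfl⟩
  have hc10 : 0 ≤ c1 := by rw [hc1]; positivity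
  have hcs := cS_pos s
  obtain ⟨Cb, hCb⟩ : ∃ Cb : ℝ, Cb = c1 * ((L2 : ℝ) + 1) ^ s / (κ * cS s) := ⟨_, rfl⟩
  have hCbpos : 0 ≤ Cb := by rw [hCb]; positivity
  have hCb64 : 64 * 3 ^ s / (κ * cS s) ≤ Cb := by
    rw [hCb]
    apply div_le_div_of_nonneg_right _ (by positivity)
    have e1 : (1 : ℝ) ≤ ((L2 : ℝ) + 1) ^ s := one_le_pow₀ (by linarith [(Nat.cast_nonneg L2 : (0 : ℝ) ≤ L2)])
    have e2 : (64 : ℝ) * 3 ^ s ≤ c1 := by
      rw [hc1]
      have : (0 : ℝ) ≤ 38 + 4 * s + 24 * s * (L2 + 1) := by positivity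
      linarith
    calc (64 : ℝ) * 3 ^ s = 64 * 3 ^ s * 1 := by ring
      _ ≤ _ := mul_le_mul e2 e1 zero_le_one hc10
  obtain ⟨Q1, hQ1⟩ := ev_log (max Cb 2) (s + 1) (a := 1 / 64) (by norm_num)
  obtain ⟨Q2, hQ2⟩ := main_fixedEU s hs (L2 + 1)
  obtain ⟨Q3, hQ3⟩ := S_closeU s (L2 + 1) hκ0
  refine ⟨Q1 + Q2 + Q3 + 3, fun Q hQ A hAQ N hN1 hN2 B j1 g η hw hj12 hg0 ε' hBs hε1 y e e3 hy0 hy1 he0 hee hye he1 hε' hθq a h ha haA hh hΔ hadm hD S hS u v hu hv hWq hpos => ?_⟩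
  obtain ⟨θ, hθ⟩ : ∃ θ : ℝ, θ = (1 - y) ^ s := ⟨_, rfl⟩
  have hθ1 : θ ≤ 1 := by rw [hθ]; exact pow_le_one₀ (by linarith) (by linarith)
  rw [← hθ] at hθq hε'
  have hQ3n : 3 ≤ Q := by omega
  have hQr : (3 : ℝ) ≤ Q := by exact_mod_cast hQ3n
  have hQ0 : (0 : ℝ) < Q := by linarith
  obtain ⟨ℓ, hℓ⟩ : ∃ ℓ : ℝ, ℓ = Real.log Q := ⟨_, rfl⟩
  have hℓ1 : 1 ≤ ℓ := by
    rw [hℓ, Real.le_log_iff_exp_le hQ0]
    linarith [Real.exp_one_lt_d9]
  obtain ⟨q, hq⟩ : ∃ q : ℝ, q = qq Q := ⟨_, rfl⟩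
  have hmax : max Cb 2 * ℓ ^ (s + 1) ≤ q := by
    have := hQ1 Q (by omega)
    rw [← hℓ] at this
    rw [hq]
    exact this
  have hℓs : 1 ≤ ℓ ^ (s + 1) := one_le_pow₀ hℓ1
  have hstar : Cb * ℓ ^ (s + 1) ≤ q := le_trans (mul_le_mul_of_nonneg_right (le_max_left _ _) (by linarith)) hmax
  have hq2 : 2 ≤ q := by
    have : 2 * ℓ ^ (s + 1) ≤ q := le_trans (mul_le_mul_of_nonneg_right (le_max_right _ _) (by linarith)) hmax
    linarith
  have hq1 : 1 ≤ q := by linarith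
  have hq0 : 0 < q := by linarith
  have hCbq : Cb ≤ q := by
    have : Cb * 1 ≤ Cb * ℓ ^ (s + 1) := mul_le_mul_of_nonneg_left hℓs hCbpos
    linarith
  have hAq : (A : ℝ) + 1 ≤ q := by
    have := AS_qq hAQ (n := 1) (Nat.succ_le_of_lt (by positivity))
    rw [pow_one, ← hq] at this
    exact this
  have hA4 : 4 * A + 1 ≤ Q := by
    have h1 := AS_pow hAQ (n := 3) (by
      have : 0 < (s + 2) ^ 2 := by positivity
      omega)
    have h2 : 4 * A + 1 ≤ (A + 1) ^ 3 := by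
      have e1 : (A + 1) ^ 3 = A * (A * A) + 3 * (A * A) + 3 * A + 1 := by ring
      have e2 : A ≤ A * A := Nat.le_mul_self A
      rw [e1]
      omega
    exact h2.trans h1
  have hA1 : A + 1 ≤ Q := by omega
  obtain ⟨Cl, hCl⟩ : ∃ Cl : ℝ, Cl = 6 + s * (4 * A + 1) := ⟨_, rfl⟩
  have hCl0 : 0 ≤ Cl := by rw [hCl]; positivity
  obtain ⟨Cp, hCp⟩ : ∃ Cp : ℝ, Cp = 6 * s * (L2 + 1) * (4 * A + 1) := ⟨_, rfl⟩
  have hCp0 : 0 ≤ Cp := by rw [hCp]; positivity
  obtain ⟨c0, hc0⟩ : ∃ c0 : ℝ, c0 = 64 * 3 ^ s + 8 * (4 * A + 1) + Cl + Cp := ⟨_, rfl⟩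
  have hc00 : 0 ≤ c0 := by rw [hc0]; positivity
  have hc0q : c0 ≤ c1 * q := by
    have e1 : c0 ≤ c1 * (A + 1) := by
      rw [hc0, hc1, hCl, hCp]
      have e2 : (0 : ℝ) ≤ A := Nat.cast_nonneg A
      have e3 : (64 * 3 ^ s + 38 + 4 * (s : ℝ) + 24 * s * (L2 + 1)) * (A + 1) =
        64 * 3 ^ s + 8 * (4 * A + 1) + (6 + s * (4 * A + 1)) + 6 * s * (L2 + 1) * (4 * A + 1) +
          (64 * 3 ^ s * A + 6 * A + 24 + 3 * s + 18 * s * (L2 + 1)) := by ring
      rw [e3]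
      have e4 : (0 : ℝ) ≤ 64 * 3 ^ s * A + 6 * A + 24 + 3 * s + 18 * s * (L2 + 1) := by positivity
      linarith only [e4]
    exact e1.trans (mul_le_mul_of_nonneg_left hAq hc10)
  have hqQ : ∀ n : ℕ, n ≤ 64 → q ^ n ≤ Q := fun n hn => by rw [hq]; exact qq_le (by omega) hn
  have h40 : 40 ≤ L1 := by
    have : 40 ≤ lE s := by unfold lE; omega
    omega
  have hQN : ∀ n : ℕ, n ≤ L1 → Q ^ n ≤ N := fun n hn => (Nat.pow_le_pow_right (by omega) hn).trans hN1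
  have hQN1 : Q ≤ N := by simpa using hQN 1 (by omega)
  have hN0n : 0 < N := by omega
  have hN0 : (0 : ℝ) < N := by exact_mod_cast hN0n
  have hQNr : (Q : ℝ) ≤ N := by exact_mod_cast hQN1
  obtain ⟨M, hM⟩ : ∃ M : ℕ, M = (4 * A + 1) * N := ⟨_, rfl⟩
  have hMr : (M : ℝ) = (4 * A + 1) * N := by rw [hM]; push_cast; ring
  have hNM : N ≤ M := by rw [hM]; exact Nat.le_mul_of_pos_left N (by omega)
  have hNMr : (N : ℝ) ≤ M := by exact_mod_cast hNM
  have hM0 : (0 : ℝ) < M := by linarith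
  have hMQN : M ≤ Q * N := by rw [hM]; exact Nat.mul_le_mul_right _ (by omega)
  have hMQ : M ≤ Q ^ (L2 + 1) := by
    calc M ≤ Q * N := hMQN
      _ ≤ Q * Q ^ L2 := Nat.mul_le_mul_left _ hN2
      _ = Q ^ (L2 + 1) := by ring
  rw [← hM] at hw hD hye
  -- logarithms
  obtain ⟨lN, hlN⟩ : ∃ lN : ℝ, lN = Real.log N := ⟨_, rfl⟩
  obtain ⟨lM, hlM⟩ : ∃ lM : ℝ, lM = Real.log M := ⟨_, rfl⟩
  have hlNL1 : L1 * ℓ ≤ lN := by
    have : Real.log ((Q : ℝ) ^ L1) ≤ Real.log N := Real.log_le_log (by positivity) (by exact_mod_cast hN1)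
    rw [Real.log_pow, ← hℓ, ← hlN] at this
    exact this
  have hL1r : (40 : ℝ) ≤ L1 := by exact_mod_cast h40
  have hlN40 : 40 ≤ lN := by
    calc (40 : ℝ) = 40 * 1 := by norm_num
      _ ≤ L1 * ℓ := mul_le_mul hL1r hℓ1 zero_le_one (by linarith)
      _ ≤ lN := hlNL1
  have hlNup : lN ≤ (L2 + 1) * ℓ := by
    have : Real.log N ≤ Real.log ((Q : ℝ) ^ L2) := Real.log_le_log hN0 (by exact_mod_cast hN2)
    rw [Real.log_pow, ← hℓ, ← hlN] at this
    have e1 : ((L2 : ℝ) + 1) * ℓ = L2 * ℓ + ℓ := by ring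
    rw [e1]
    linarith only [this, hℓ1]
  have hlMN : lN ≤ lM := by rw [hlN, hlM]; exact Real.log_le_log hN0 hNMr
  have hlMup : lM ≤ (L2 + 1) * ℓ := by
    have : Real.log M ≤ Real.log ((Q : ℝ) ^ (L2 + 1)) := Real.log_le_log hM0 (by exact_mod_cast hMQ)
    rw [Real.log_pow, ← hℓ, ← hlM] at this
    push_cast at this
    exact this
  have hlMN' : lM ≤ lN + ℓ := by
    have : Real.log M ≤ Real.log ((Q : ℝ) * N) := Real.log_le_log hM0 (by exact_mod_cast hMQN)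
    rw [Real.log_mul (by positivity) (by positivity), ← hℓ, ← hlM, ← hlN] at this
    linarith
  -- the parameters
  obtain ⟨Y, hY⟩ : ∃ Y : ℕ, Y = M / Q ^ 3 := ⟨_, rfl⟩
  have hYpos : 0 < M / Q ^ 3 := Nat.div_pos ((hQN 3 (by omega)).trans hNM) (by positivity)
  have hYlow : (M : ℝ) / (2 * (Q : ℝ) ^ 3) ≤ Y := by
    have := div_lower (M := M) (D := Q ^ 3) (by positivity) (by
      calc 2 * Q ^ 3 ≤ Q * Q ^ 3 := Nat.mul_le_mul_right _ (by omega)
        _ = Q ^ 4 := by ring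
        _ ≤ M := (hQN 4 (by omega)).trans hNM)
    rw [hY]
    push_cast at this ⊢
    exact this
  obtain ⟨lY, hlY⟩ : ∃ lY : ℝ, lY = Real.log Y := ⟨_, rfl⟩
  have hlYlow : lN - 4 * ℓ ≤ lY := by
    have h1 : (N : ℝ) / Q ^ 4 ≤ Y := by
      refine le_trans ?_ hYlow
      rw [div_le_div_iff₀ (by positivity) (by positivity)]
      have : (N : ℝ) * (2 * Q ^ 3) ≤ M * (Q * Q ^ 3) := by
        apply mul_le_mul hNMr _ (by positivity) hM0.le
        apply mul_le_mul_of_nonneg_right (by linarith) (by positivity)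
      calc (N : ℝ) * (2 * Q ^ 3) ≤ M * (Q * Q ^ 3) := this
        _ = M * Q ^ 4 := by ring
    have h2 : Real.log ((N : ℝ) / Q ^ 4) ≤ Real.log Y := Real.log_le_log (by positivity) h1
    rw [Real.log_div (by positivity) (by positivity), Real.log_pow, ← hℓ, ← hlN, ← hlY] at h2
    push_cast at h2
    exact h2
  have hlY0 : 0 < lY := by
    have e1 : 40 * ℓ ≤ L1 * ℓ := mul_le_mul_of_nonneg_right hL1r (by linarith only [hℓ1])
    linarith only [e1, hlNL1, hlYlow, hℓ1]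
  obtain ⟨W, hW⟩ : ∃ W : ℝ, W = ((v - u : ℤ) : ℝ) := ⟨_, rfl⟩
  rw [← hq] at hWq hD hθq
  have hθ0 : 0 < θ := by
    by_contra hc
    push Not at hc
    have := mul_nonpos_of_nonpos_of_nonneg hc hq0.le
    linarith
  rw [← hW] at hWq ⊢
  rw [← hlN]
  have hW0 : 0 < W := lt_of_lt_of_le (by positivity) hWq
  obtain ⟨w3, hw3⟩ : ∃ w3 : ℝ, w3 = W / q ^ 3 := ⟨_, rfl⟩
  have hw30 : 0 ≤ w3 := by rw [hw3]; positivity
  have hN4 : (N : ℝ) / q ^ 4 ≤ w3 := by
    rw [hw3]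
    have : (N : ℝ) / q ^ 4 = (N / q) / q ^ 3 := by field_simp
    rw [this]
    exact div_le_div_of_nonneg_right hWq (by positivity)
  obtain ⟨w, hwdef⟩ : ∃ w : ℝ, w = W / lN ^ s := ⟨_, rfl⟩
  have hlN0 : 0 < lN := by linarith
  have hw0 : 0 ≤ w := by rw [hwdef]; positivity
  have hlNs1 : 1 ≤ lN ^ s := one_le_pow₀ (by linarith)
  have hwW : w ≤ W := by
    rw [hwdef]
    exact div_le_self hW0.le hlNs1
  have hkey : ∀ c : ℝ, c ≤ c0 → c * ℓ * w3 ≤ κ * θ * (cS s * w) := by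
    intro c hc
    rw [hw3, hwdef]
    have e1 := key_numU (θ := θ / q) hκ0 hcs hℓ1 hq1 hW0.le hlN0 hlNup hc10 hCb hstar (c := c / q)
      (by rw [div_le_iff₀ hq0]; exact hc.trans hc0q) (by positivity) (by
        have e2 : θ / q * q ^ 3 = (θ * q) * q := by field_simp
        rw [e2]
        exact le_mul_of_one_le_left hq0.le hθq)
    have e2 : c * ℓ * (W / q ^ 3) = c / q * ℓ * (W / q ^ 3) * q := by field_simp
    have e3 : κ * θ * (cS s * (W / lN ^ s)) = κ * (θ / q) * (cS s * (W / lN ^ s)) * q := by field_simp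
    rw [e2, e3]
    exact mul_le_mul_of_nonneg_right e1 hq0.le
  have hkey' : ∀ c : ℝ, 0 ≤ c → c ≤ c0 → c * w3 ≤ κ * θ * (cS s * w) := by
    intro c hc0' hc
    refine le_trans ?_ (hkey c hc)
    have : c * w3 * 1 ≤ c * w3 * ℓ := mul_le_mul_of_nonneg_left hℓ1 (mul_nonneg hc0' hw30)
    linarith
  -- the cells
  have hq2' : 2 ≤ qq Q := by rw [← hq]; exact hq2
  obtain ⟨G, hG⟩ : ∃ G : ℕ, G = cellG Q N := ⟨_, rfl⟩
  obtain ⟨K, hK⟩ : ∃ K : ℕ, K = KK Q := ⟨_, rfl⟩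
  have hG3 : (G : ℝ) ≤ 3 * w3 := by
    have := cellG_le (Q := Q) (N := N) hq2' (by rw [← hq]; exact (hqQ 4 (by norm_num)).trans hQNr)
    rw [← hq, ← hG] at this
    linarith
  have hGpos : 0 < G := by rw [hG]; exact Nat.succ_pos _
  have hKG : N < K * G := by rw [hG, hK]; exact cellG_gt hq2'
  have hYup : (Y : ℝ) ≤ (4 * A + 1) * w3 := by
    have h1 : (Y : ℝ) ≤ M / (Q : ℝ) ^ 3 := by
      rw [hY]
      have := Nat.cast_div_le (α := ℝ) (m := M) (n := Q ^ 3)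
      push_cast at this
      exact this
    have h2 : (M : ℝ) / (Q : ℝ) ^ 3 ≤ M / q ^ 4 := by
      apply div_le_div_of_nonneg_left hM0.le (by positivity)
      calc q ^ 4 ≤ Q := hqQ 4 (by norm_num)
        _ ≤ (Q : ℝ) ^ 3 := le_self_pow₀ (by linarith) (by norm_num)
    have h3 : (M : ℝ) / q ^ 4 = (4 * A + 1) * (N / q ^ 4) := by rw [hMr]; ring
    calc (Y : ℝ) ≤ (4 * A + 1) * (N / q ^ 4) := by linarith
      _ ≤ _ := mul_le_mul_of_nonneg_left hN4 (by positivity)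
  have hlost : ((2 * G + s * Y : ℕ) : ℝ) ≤ κ * θ * (cS s * w) := by
    refine le_trans ?_ (hkey' Cl hCl0 (by rw [hc0]; have : (0 : ℝ) ≤ 8 * (4 * A + 1) := by positivity
                                          linarith))
    rw [hCl]
    push_cast
    have h1 : (s : ℝ) * Y ≤ s * ((4 * A + 1) * w3) := mul_le_mul_of_nonneg_left hYup (by linarith only [hsr])
    have e1 : (6 + (s : ℝ) * (4 * A + 1)) * w3 = 6 * w3 + s * ((4 * A + 1) * w3) := by ring
    rw [e1]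
    linarith only [h1, hG3]
  -- constants
  obtain ⟨Sg, hSg⟩ : ∃ Sg : ℝ, Sg = SPR (Q ^ cR s) a h := ⟨_, rfl⟩
  have hSgc : cS s ≤ Sg := by rw [hSg]; exact SPR_lower hadm _
  have hSg0 : 0 < Sg := lt_of_lt_of_le hcs hSgc
  have hcs1 : cS s ≤ 1 := by
    unfold cS
    have : (1 / ((2 * s ^ 2 + 2 * s + 2 : ℕ) : ℝ)) ^ (2 * s ^ 2 + 2 * s + 3) ≤ 1 := by
      apply pow_le_one₀ (by positivity)
      rw [div_le_one (by positivity)]
      exact_mod_cast (by omega : 1 ≤ 2 * s ^ 2 + 2 * s + 2)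
    linarith
  obtain ⟨Am, hAm⟩ : ∃ Am : ℝ, Am = twA j1 y a h := ⟨_, rfl⟩
  have hAmθ : θ ≤ Am := by
    rw [hAm, hθ]
    refine (twA_bounds hy0 hy1 (twG_nonempty (Nat.succ_pos _) (adm_of_nuP hadm))).1
  have hAm0 : 0 < Am := lt_of_lt_of_le hθ0 hAmθ
  obtain ⟨Sa, hSa⟩ : ∃ Sa : ℝ, Sa = Am * Sg := ⟨_, rfl⟩
  have hSa0 : 0 < Sa := by rw [hSa]; positivity
  have hθSa : θ * cS s ≤ Sa := by rw [hSa]; exact mul_le_mul hAmθ hSgc hcs.le hAm0.le
  have hθSa' : θ * Sg ≤ Sa := by rw [hSa]; exact mul_le_mul_of_nonneg_right hAmθ hSg0.le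
  rw [← hAm]
  have hcw : θ * (cS s * w) ≤ Sa * w := by
    rw [← mul_assoc]
    exact mul_le_mul_of_nonneg_right hθSa hw0
  have hcw1 : cS s * w ≤ W := by
    calc cS s * w ≤ 1 * w := mul_le_mul_of_nonneg_right hcs1 hw0
      _ ≤ W := by linarith
  have hcwW : θ * (cS s * w) ≤ Sa * W := by
    rw [← mul_assoc]
    exact mul_le_mul hθSa hwW hw0 hSa0.le
  -- range
  have hMH : (4 * A * N : ℤ) ≤ (M : ℤ) - (M / Q ^ 4 : ℕ) := by
    have h1 : M / Q ^ 4 ≤ N := by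
      apply Nat.div_le_of_le_mul
      calc M ≤ Q * N := hMQN
        _ ≤ Q ^ 4 * N := Nat.mul_le_mul_right _ (Nat.le_self_pow (by norm_num) _)
    have h2 : (M : ℤ) = 4 * A * N + N := by rw [hM]; push_cast; ring
    have h3 : ((M / Q ^ 4 : ℕ) : ℤ) ≤ N := by exact_mod_cast h1
    linarith
  have hrng : ∀ n ∈ Ico u v, ∀ i, 1 ≤ a i * n + h i ∧ a i * n + h i ≤ (M : ℤ) - (M / Q ^ 4 : ℕ) := by
    intro n hn i
    refine ⟨hpos n hn i, ?_⟩
    rw [mem_Ico] at hn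
    have h1 : |n| ≤ 2 * N := by rw [abs_le]; constructor <;> linarith
    have h2 : a i * n ≤ A * (2 * N) := by
      calc a i * n ≤ |a i * n| := le_abs_self _
        _ = |a i| * |n| := abs_mul _ _
        _ ≤ A * (2 * N) := mul_le_mul (haA i) h1 (abs_nonneg _) (Int.natCast_nonneg _)
    have h3 := le_abs_self (h i)
    have h4 := hh i
    linarith
  -- the inner interval
  obtain ⟨k1, k2, hk1, hk1', hk2, hk2'⟩ := inner_ends hGpos u v
  have hGW : (G : ℝ) ≤ W := by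
    have h1 := hkey' 64 (by norm_num) (by rw [hc0]; have : (0 : ℝ) ≤ 8 * (4 * A + 1) := by positivity
                                          linarith)
    have h2 : κ * θ * (cS s * w) ≤ 1 * W := mul_le_mul (mul_le_one₀ (by linarith only [hκ]) hθ0.le hθ1) hcw1 (mul_nonneg hcs.le hw0) zero_le_one
    linarith
  have hGWi : (G : ℤ) ≤ v - u := by
    rw [hW] at hGW
    exact_mod_cast hGW
  have hKGi : (N : ℤ) < K * G := by exact_mod_cast hKG
  have hGi : (0 : ℤ) < G := by exact_mod_cast hGpos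
  have hKk : ∀ k : ℤ, -(2 * N : ℤ) - G ≤ k * G → k * G ≤ 2 * N + G → |k| ≤ 2 * K := by
    intro k h1 h2
    rw [abs_le]
    constructor
    · by_contra hc
      push Not at hc
      have h3 : k * G ≤ (-(2 * K) - 1) * G := mul_le_mul_of_nonneg_right (by linarith only [hc]) hGi.le
      have e1 : (-(2 * (K : ℤ)) - 1) * G = -2 * (K * G) - G := by ring
      rw [e1] at h3
      linarith only [h1, h3, hKGi]
    · by_contra hc
      push Not at hc
      have h3 : (2 * (K : ℤ) + 1) * G ≤ k * G := mul_le_mul_of_nonneg_right (by linarith only [hc]) hGi.le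
      have e1 : (2 * (K : ℤ) + 1) * G = 2 * (K * G) + G := by ring
      rw [e1] at h3
      linarith only [h2, h3, hKGi]
  have hk1b : |k1| ≤ 2 * K := hKk k1 (by linarith only [hk1, hu, hGi]) (by linarith only [hk1', hGWi, hv])
  have hk2b : |k2| ≤ 2 * K := hKk k2 (by linarith only [hk2', hGWi, hu]) (by linarith only [hk2, hv, hGi])
  rw [← hG, ← hK] at hD
  have hD' := hD k1 k2 hk1b hk2b
  obtain ⟨u', v', hI, hDI⟩ := exists_sub hYpos a h (k1 * G) (k2 * G)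
  have hlc := lost_card ha hk1' hk2' hI hrng
  rw [← hY] at hlc
  have hsub : Ico u' v' ⊆ Ico u v := by
    intro n hn
    have := ((hI n).1 hn).1
    rw [mem_Ico] at this ⊢
    constructor <;> linarith [this.1, this.2]
  have hcardW : ((Ico u v).card : ℝ) = W := by
    rw [Int.card_Ico, hW]
    have : ((v - u).toNat : ℤ) = v - u := Int.toNat_of_nonneg (by linarith)
    exact_mod_cast this
  obtain ⟨T, hT⟩ : ∃ T : ℝ, T = ((Ico u' v').card : ℝ) := ⟨_, rfl⟩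
  have hT0 : 0 ≤ T := by rw [hT]; positivity
  have hTW : T ≤ W := by
    rw [hT, ← hcardW]
    exact_mod_cast card_le_card hsub
  have hlcr : ((Ico u v \ Ico u' v').card : ℝ) ≤ κ * θ * (cS s * w) := by
    refine le_trans ?_ hlost
    exact_mod_cast hlc
  have hWT : W * (1 - κ) ≤ T := by
    have h1 : (Ico u v \ Ico u' v').card + (Ico u' v').card = (Ico u v).card := card_sdiff_add_card_eq_card hsub
    have h2 : ((Ico u v \ Ico u' v').card : ℝ) + T = W := by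
      rw [hT, ← hcardW]
      exact_mod_cast h1
    have h3 : κ * θ * (cS s * w) ≤ κ * θ * W := mul_le_mul_of_nonneg_left hcw1 (by positivity)
    have h4 : κ * θ * W ≤ κ * W := by
      apply mul_le_mul_of_nonneg_right _ hW0.le
      calc κ * θ ≤ κ * 1 := mul_le_mul_of_nonneg_left hθ1 hκ0.le
        _ = κ := mul_one κ
    linarith
  -- the main term
  have hm := hQ2 Q (by omega) A hAQ M (((Nat.pow_le_pow_right (by omega) hL1).trans hN1).trans hNM) hMQ B j1 g η hw hj12 hg0 ε' hBs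
    hε1 y e e3 hy0 hy1 he0 hee hye a h ha haA
    (fun i => (hh i).trans (by
      have : (M : ℤ) = 4 * A * N + N := by rw [hM]; push_cast; ring
      have q0 : (0 : ℤ) ≤ A * N := by positivity
      have q1 : (0 : ℤ) ≤ N := Int.natCast_nonneg _
      linarith)) hΔ u' v' (fun n hn i => ((hI n).1 hn).2 i)
  rw [← hSg, ← hAm, ← hSa, ← hT] at hm
  have hX : |XL a h u' v' - Sa * T| ≤ κ * (Sa * W) := by
    have h1 : ((XL a h u' v' - Sa * T : ℝ) : ℂ) = DI Q M a h (k1 * G) (k2 * G) +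
        (∑ n ∈ Ico u' v', ∏ i, cB Q (cR s) M (a i * n + h i) - ((Sa * T : ℝ) : ℂ)) := by
      rw [hDI]
      push_cast
      ring
    have h2 : |XL a h u' v' - Sa * T| = ‖((XL a h u' v' - Sa * T : ℝ) : ℂ)‖ := by
      rw [Complex.norm_real, Real.norm_eq_abs]
    rw [h2, h1]
    refine (norm_add_le _ _).trans ?_
    refine (add_le_add hD' hm).trans ?_
    have hQinv' : 3 ^ s / (Q : ℝ) ≤ κ * (θ * cS s) / 64 := by
      have h3 : 64 * 3 ^ s / (κ * cS s) ≤ q := hCb64.trans hCbq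
      rw [div_le_iff₀ (by positivity)] at h3
      have h6 : q * q ≤ Q := by
        have := hqQ 2 (by norm_num)
        rwa [sq] at this
      rw [div_le_div_iff₀ hQ0 (by norm_num)]
      have h7 : q * (κ * cS s) ≤ q * (κ * cS s) * (θ * q) := le_mul_of_one_le_right (by positivity) hθq
      have h8 : q * (κ * cS s) * (θ * q) = κ * (θ * cS s) * (q * q) := by ring
      have h9 : κ * (θ * cS s) * (q * q) ≤ κ * (θ * cS s) * Q := mul_le_mul_of_nonneg_left h6 (by positivity)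
      linarith
    have hQinv : 1 / (Q : ℝ) ≤ κ * (θ * cS s) / 64 := by
      refine le_trans ?_ hQinv'
      exact div_le_div_of_nonneg_right h3s hQ0.le
    have hθc : θ * cS s ≤ cS s := by
      calc θ * cS s ≤ 1 * cS s := mul_le_mul_of_nonneg_right hθ1 hcs.le
        _ = cS s := one_mul _
    have hQinv2 : 1 / (Q : ℝ) ≤ Sg := by
      have h3 : κ * (θ * cS s) ≤ 1 * (θ * cS s) := mul_le_mul_of_nonneg_right (by linarith) (by positivity)
      linarith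
    have hκSa : κ * (θ * cS s) ≤ κ * Sa := mul_le_mul_of_nonneg_left hθSa hκ0.le
    have t1 : (N : ℝ) / q ^ 4 ≤ κ * (Sa * W) / 64 := by
      have h3 := hkey' 64 (by norm_num) (by rw [hc0]; have : (0 : ℝ) ≤ 8 * (4 * A + 1) := by positivity
                                            linarith)
      have h4 : κ * θ * (cS s * w) ≤ κ * (Sa * W) := by
        rw [mul_assoc]
        exact mul_le_mul_of_nonneg_left hcwW hκ0.le
      linarith
    have t2 : (M : ℝ) / (Q : ℝ) ^ 10 ≤ κ * (Sa * W) / 8 := by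
      have h3 := hkey' (8 * (4 * A + 1)) (by positivity) (by rw [hc0]; linarith)
      have h4 : κ * θ * (cS s * w) ≤ κ * (Sa * W) := by
        rw [mul_assoc]
        exact mul_le_mul_of_nonneg_left hcwW hκ0.le
      have h5 : (M : ℝ) / (Q : ℝ) ^ 10 ≤ M / q ^ 4 := by
        apply div_le_div_of_nonneg_left hM0.le (by positivity)
        calc q ^ 4 ≤ Q := hqQ 4 (by norm_num)
          _ ≤ (Q : ℝ) ^ 10 := le_self_pow₀ (by linarith) (by norm_num)
      have h6 : (M : ℝ) / q ^ 4 = (4 * A + 1) * (N / q ^ 4) := by rw [hMr]; ring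
      have h7 : (4 * (A : ℝ) + 1) * (N / q ^ 4) ≤ (4 * A + 1) * w3 := mul_le_mul_of_nonneg_left hN4 (by positivity)
      linarith
    have t3 : T * (((1 + e) ^ s - 1) * Sa + ((Sg + 1 / Q) * ((3 + ε') ^ s - 3 ^ s) + 3 ^ s * (1 / Q))) ≤
        κ * (Sa * W) * (1 / 4 + 1 / 64) := by
      have hε0 : 0 ≤ ε' := (sum_nonneg hw.1.2.2.1).trans hBs
      have h3 : 0 ≤ (3 + ε') ^ s - 3 ^ s := by
        have : (3 : ℝ) ^ s ≤ (3 + ε') ^ s := pow_le_pow_left₀ (by norm_num) (by linarith) s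
        linarith
      have h3' : 0 ≤ (1 + e) ^ s - 1 := by
        have : (1 : ℝ) ≤ (1 + e) ^ s := one_le_pow₀ (by linarith)
        linarith
      have h4 : (Sg + 1 / Q) * ((3 + ε') ^ s - 3 ^ s) ≤ (2 * Sg) * (θ * (κ / 16)) :=
        mul_le_mul (by linarith) hε' h3 (by linarith)
      have h4' : (2 * Sg) * (θ * (κ / 16)) ≤ κ / 8 * Sa := by
        have : κ / 8 * (θ * Sg) ≤ κ / 8 * Sa := mul_le_mul_of_nonneg_left hθSa' (by positivity)
        linarith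
      have h5' : 3 ^ s * (1 / (Q : ℝ)) ≤ κ * Sa / 64 := by
        rw [mul_one_div]
        linarith
      have h6' : ((1 + e) ^ s - 1) * Sa ≤ κ / 8 * Sa := mul_le_mul_of_nonneg_right he1 hSa0.le
      have h5 : ((1 + e) ^ s - 1) * Sa + ((Sg + 1 / Q) * ((3 + ε') ^ s - 3 ^ s) + 3 ^ s * (1 / Q)) ≤
          κ * Sa * (1 / 4 + 1 / 64) := by
        linarith
      calc T * (((1 + e) ^ s - 1) * Sa + ((Sg + 1 / Q) * ((3 + ε') ^ s - 3 ^ s) + 3 ^ s * (1 / Q))) ≤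
          W * (κ * Sa * (1 / 4 + 1 / 64)) := by
            apply mul_le_mul hTW h5 _ hW0.le
            have : 0 ≤ (Sg + 1 / Q) * ((3 + ε') ^ s - 3 ^ s) := mul_nonneg (by positivity) h3
            have : 0 ≤ ((1 + e) ^ s - 1) * Sa := mul_nonneg h3' hSa0.le
            positivity
        _ = _ := by ring
    have hSW : 0 ≤ κ * (Sa * W) := by positivity
    linarith
  -- the number of prime powers
  obtain ⟨pp, hpp⟩ : ∃ pp : ℝ, pp = (s : ℝ) * (((Nat.sqrt M + 1) * (Nat.log 2 M + 1) : ℕ) : ℝ) := ⟨_, rfl⟩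
  have hppb : pp ≤ κ * (Sa * w) := by
    have h1 := hkey Cp (by rw [hc0]; have : (0 : ℝ) ≤ 8 * (4 * A + 1) := by positivity
                           linarith)
    have h2 : κ * θ * (cS s * w) ≤ κ * (Sa * w) := by
      rw [mul_assoc]
      exact mul_le_mul_of_nonneg_left hcw hκ0.le
    refine le_trans ?_ (h1.trans h2)
    have hsM1 : 1 ≤ √(M : ℝ) := by
      rw [Real.one_le_sqrt]
      linarith
    have h3 : ((Nat.sqrt M : ℕ) : ℝ) + 1 ≤ 2 * √(M : ℝ) := by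
      have := Real.nat_sqrt_le_real_sqrt (a := M)
      linarith
    have h4 : √(M : ℝ) ≤ M / q ^ 4 := by
      rw [le_div_iff₀ (by positivity)]
      have h5 : q ^ 4 ≤ √(M : ℝ) := by
        apply Real.le_sqrt_of_sq_le
        have e8 : (q ^ 4) ^ 2 = q ^ 8 := by ring
        rw [e8]
        exact (hqQ 8 (by norm_num)).trans (hQNr.trans hNMr)
      calc √(M : ℝ) * q ^ 4 ≤ √(M : ℝ) * √(M : ℝ) := mul_le_mul_of_nonneg_left h5 (by positivity)
        _ = M := Real.mul_self_sqrt hM0.le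
    have h6 : (M : ℝ) / q ^ 4 ≤ (4 * A + 1) * w3 := by
      have : (M : ℝ) / q ^ 4 = (4 * A + 1) * (N / q ^ 4) := by rw [hMr]; ring
      rw [this]
      exact mul_le_mul_of_nonneg_left hN4 (by positivity)
    have h7 : (Nat.log 2 M : ℝ) + 1 ≤ 3 * ((L2 + 1) * ℓ) := by
      have := log2_le (R := M) (by omega)
      rw [← hlM] at this
      linarith
    rw [hpp, hCp]
    push_cast
    calc (s : ℝ) * ((((Nat.sqrt M : ℕ) : ℝ) + 1) * ((Nat.log 2 M : ℝ) + 1)) ≤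
        s * ((2 * ((4 * A + 1) * w3)) * (3 * ((L2 + 1) * ℓ))) := by
          apply mul_le_mul_of_nonneg_left _ (by linarith)
          apply mul_le_mul (by linarith) h7 (by positivity) (by positivity)
      _ = 6 * s * (L2 + 1) * (4 * A + 1) * ℓ * w3 := by ring
  -- conclusion
  have hSclose : |S - Sg| ≤ κ * Sg := by
    rw [hSg]
    refine hQ3 Q (by omega) A hA1 M (by omega) hMQ (Q ^ cR s) ?_ a h ha haA (fun i => (hh i).trans (by
      have : (M : ℤ) = 4 * A * N + N := by rw [hM]; push_cast; ring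
      have q0 : (0 : ℤ) ≤ A * N := by positivity
      have q1 : (0 : ℤ) ≤ N := Int.natCast_nonneg _
      linarith)) hΔ hadm S hS
    apply Nat.le_self_pow
    unfold cR
    have : 0 < 2 * s * (s * (s + 1) + 2) := by positivity
    omega
  have hSclose' : |Am * S - Sa| ≤ κ * Sa := by
    rw [hSa, ← mul_sub, abs_mul, abs_of_pos hAm0]
    calc Am * |S - Sg| ≤ Am * (κ * Sg) := mul_le_mul_of_nonneg_left hSclose hAm0.le
      _ = _ := by ring
  have hratio : (s : ℝ) * (4 / L1) ≤ κ / 4 := by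
    rw [mul_div_assoc', div_le_div_iff₀ (by linarith) (by norm_num)]
    linarith
  have hr1 : (4 : ℝ) / L1 ≤ 1 := by rw [div_le_one (by linarith)]; linarith
  have hrℓ : ℓ ≤ lN / L1 := by rw [le_div_iff₀ (by linarith)]; linarith
  have h6 : lN ^ s ≤ (1 + κ) * lY ^ s := by
    apply pow_ratio hlN0.le hr1 hratio hκ0.le hκ
    have : (1 - 4 / (L1 : ℝ)) * lN = lN - 4 * (lN / L1) := by ring
    rw [this]
    linarith
  have h6' : lM ^ s ≤ (1 + κ) * lN ^ s := by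
    apply pow_ratio (by linarith) hr1 hratio hκ0.le hκ
    have h8 : (1 - 4 / (L1 : ℝ)) * lM = lM - 4 * (lM / L1) := by ring
    have h9 : lN / L1 ≤ lM / L1 := div_le_div_of_nonneg_right hlMN (by linarith)
    have h10 : 0 ≤ lN / L1 := by positivity
    rw [h8]
    linarith
  have hX0 : 0 ≤ XL a h u' v' := by
    unfold XL
    exact sum_nonneg fun n _ => Finset.prod_nonneg fun i _ => ArithmeticFunction.vonMangoldt_nonneg
  have hlow := XL_lower (a := a) (h := h) (u := u') (v := v') (Y := Y) (by omega) (fun n hn i => by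
    rw [hY]; exact (((hI n).1 hn).2 i).1)
  have hupp := XL_upper (a := a) (h := h) ha (u := u') (v := v') (M := M) (fun n hn i => by
    have h8 := ((hI n).1 hn).2 i
    have q1 : (1 : ℤ) ≤ ((M / Q ^ 3 : ℕ) : ℤ) := by exact_mod_cast hYpos
    have q0 : (0 : ℤ) ≤ ((M / Q ^ 4 : ℕ) : ℤ) := Int.natCast_nonneg _
    constructor <;> linarith [h8.1, h8.2])
  rw [← hlY] at hlow
  rw [← hlM, ← hpp] at hupp
  have hPP : (pc a h u v : ℝ) ≤ pc a h u' v' + κ * (Sa * w) := by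
    have h8 : (pc a h u v : ℝ) ≤ pc a h u' v' + ((Ico u v \ Ico u' v').card : ℝ) := by exact_mod_cast pc_lost a h u v u' v'
    have h9 : κ * θ * (cS s * w) ≤ κ * (Sa * w) := by
      rw [mul_assoc]
      exact mul_le_mul_of_nonneg_left hcw hκ0.le
    linarith
  have hPP' : (pc a h u' v' : ℝ) ≤ pc a h u v := by exact_mod_cast pc_mono a h hsub
  rw [hwdef] at hPP hppb
  exact final_ineq hκ0.le hκ hlN0 hlY0 (by linarith) hSa0.le hW0.le hlow hupp hX hWT hTW hPP' hPP hppb h6 h6' hSclose' hX0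

end Pool.Agent.Helper86.EA
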