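import Pool.Agent.Helper86.EA.E7
import Pool.Agent.Helper86.UA.U7

set_option autoImplicit false

/-!
# Every scale, asymptotic formula with the exceptional zero kept
-/

open Finset Filter Topology

namespace Pool.Agent.Helper86.EA

open Pool.Agent.H807R2.Dav hiding KK
open Pool.Agent.Helper86.PS
open Pool.Agent.Helper86.XS
open Pool.Agent.Helper86.DZ
open Pool.Agent.Helper86.UA

lemma pow_one_small {x : ℝ} (hx : 0 ≤ x) (hx1 : x ≤ 1) (s : ℕ) : (1 + x) ^ s - 1 ≤ x * (2 ^ s - 1) := by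
  induction s with
  | zero => simp
  | succ s ih =>
    have e1 : (1 + x) ^ (s + 1) - 1 = (1 + x) * ((1 + x) ^ s - 1) + x := by ring
    rw [e1]
    have h2 : (1 : ℝ) ≤ 2 ^ s := one_le_pow₀ (by norm_num)
    have h0 : 0 ≤ x * (2 ^ s - 1) := mul_nonneg hx (by linarith)
    have h1 : (1 + x) * ((1 + x) ^ s - 1) ≤ (1 + x) * (x * (2 ^ s - 1)) := mul_le_mul_of_nonneg_left ih (by linarith)
    have h3 : (1 + x) * (x * (2 ^ s - 1)) ≤ 2 * (x * (2 ^ s - 1)) := mul_le_mul_of_nonneg_right (by linarith) h0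
    rw [pow_succ]
    linarith

lemma PSPE_eps {s A : ℕ} {ε ε0 δ : ℝ} {j : PC} {y : ℝ} {N : ℕ} (h0 : 0 < ε0) (h : ε0 ≤ ε)
    (hP : PSPE s A ε0 δ j y N) : PSPE s A ε δ j y N := by
  intro a ha
  obtain ⟨E, hE1, hE2⟩ := hP a ha
  refine ⟨E, hE1, fun g hg hne hadm => ?_⟩
  obtain ⟨S, hS, hS2⟩ := hE2 g hg hne hadm
  refine ⟨S, hS, fun u v hu hv hW hpos => ?_⟩
  have h1 := hS2 u v hu hv hW hpos
  refine h1.trans ?_
  have h2 : 0 ≤ ε0 * (twA j y a g * S * (((v - u : ℤ) : ℝ) / Real.log N ^ s)) := (abs_nonneg _).trans h1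
  have h3 : 0 ≤ twA j y a g * S * (((v - u : ℤ) : ℝ) / Real.log N ^ s) := nonneg_of_mul_nonneg_right h2 h0
  exact mul_le_mul_of_nonneg_right h h3

lemma twA_zero {s : ℕ} {j : PC} {a h : Fin s → ℤ} (hG : (twG (j.1 + 1) a h).Nonempty) : twA j 0 a h = 1 := by
  unfold twA
  have : ((twG (j.1 + 1) a h).card : ℝ) ≠ 0 := by exact_mod_cast (card_pos.2 hG).ne'
  simp only [zero_mul, sub_zero, prod_const_one, sum_const, nsmul_eq_mul, mul_one]
  field_simp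

lemma PSPE_of_PSPX {s A : ℕ} {ε δ : ℝ} {P : (Fin s → ℤ) → (Fin s → ℤ) → Prop} {N : ℕ} (j : PC) (hPt : ∀ a h, P a h)
    (hP : PSPX s A ε δ P N) : PSPE s A ε δ j 0 N := by
  intro a ha
  obtain ⟨E, hE1, hE2⟩ := hP a ha
  refine ⟨E, hE1, fun g hg hne hadm => ?_⟩
  obtain ⟨S, hS, hS2⟩ := hE2 g hg hne hadm (hPt a g)
  refine ⟨S, hS, fun u v hu hv hW hpos => ?_⟩
  rw [twA_zero (twG_nonempty (Nat.succ_pos _) (adm_of_nuP hadm)), one_mul]
  exact hS2 u v hu hv hW hpos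

/-- `1 - N ^ (-η)` from below -/
lemma y_upper {N Q L1 : ℕ} {η θ : ℝ} (hQ : 1 ≤ Q) (hN : Q ^ L1 ≤ N) (hη : 0 ≤ η) (hθ : θ = η * Real.log Q) :
    (N : ℝ) ^ (-η) * (1 + L1 * θ) ≤ 1 := by
  have hQ0 : (0 : ℝ) < Q := by exact_mod_cast hQ
  have hN0 : (0 : ℝ) < N := by
    have : 0 < N := lt_of_lt_of_le (by positivity) hN
    exact_mod_cast this
  have hl : L1 * Real.log Q ≤ Real.log N := by
    have : Real.log ((Q : ℝ) ^ L1) ≤ Real.log N := Real.log_le_log (by positivity) (by exact_mod_cast hN)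
    rwa [Real.log_pow] at this
  have hlQ : 0 ≤ Real.log Q := Real.log_nonneg (by exact_mod_cast hQ)
  have h1 : 1 + L1 * θ ≤ Real.exp (Real.log N * η) := by
    have h2 := Real.add_one_le_exp (Real.log N * η)
    have h3 : L1 * Real.log Q * η ≤ Real.log N * η := mul_le_mul_of_nonneg_right hl hη
    rw [hθ]
    have h4 : (L1 : ℝ) * (η * Real.log Q) = L1 * Real.log Q * η := by ring
    rw [h4]
    linarith
  have h5 : (N : ℝ) ^ (-η) = (Real.exp (Real.log N * η))⁻¹ := by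
    rw [Real.rpow_def_of_pos hN0, ← Real.exp_neg]
    congr 1
    ring
  rw [h5, inv_mul_le_iff₀ (Real.exp_pos _), mul_one]
  exact h1

lemma y_near {N Q A L1 : ℕ} {η θ : ℝ} (hQ : 3 ≤ Q) (hA4 : 4 * A + 1 ≤ Q) (hL1 : 4 ≤ L1) (hN : Q ^ L1 ≤ N) (hη : 0 ≤ η)
    (hθ : θ = η * Real.log Q) (n : ℤ) (hn1 : ((((4 * A + 1) * N) / Q ^ 3 : ℕ) : ℤ) ≤ n) (hn2 : n ≤ (((4 * A + 1) * N : ℕ) : ℤ)) :
    |(n : ℝ) ^ (-η) - (N : ℝ) ^ (-η)| ≤ 4 * θ := by
  have hQr : (3 : ℝ) ≤ Q := by exact_mod_cast hQ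
  have hQ0 : (0 : ℝ) < Q := by linarith
  have hQ4 : Q ^ 4 ≤ N := (Nat.pow_le_pow_right (by omega) hL1).trans hN
  have hQN : Q ≤ N := (Nat.le_self_pow (by norm_num) Q).trans hQ4
  have hN0 : (0 : ℝ) < N := by exact_mod_cast (by omega : 0 < N)
  have hN1 : (1 : ℝ) ≤ N := by exact_mod_cast (by omega : 1 ≤ N)
  obtain ⟨M, hM⟩ : ∃ M : ℕ, M = (4 * A + 1) * N := ⟨_, rfl⟩
  rw [← hM] at hn1 hn2
  have hNM : N ≤ M := by rw [hM]; exact Nat.le_mul_of_pos_left N (by omega)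
  have hMQN : M ≤ Q * N := by rw [hM]; exact Nat.mul_le_mul_right _ (by omega)
  have hNMr : (N : ℝ) ≤ M := by exact_mod_cast hNM
  have hM0 : (0 : ℝ) < M := by linarith
  have hYlow : (M : ℝ) / (2 * (Q : ℝ) ^ 3) ≤ ((M / Q ^ 3 : ℕ) : ℝ) := by
    have := div_lower (M := M) (D := Q ^ 3) (by positivity) (by
      calc 2 * Q ^ 3 ≤ Q * Q ^ 3 := Nat.mul_le_mul_right _ (by omega)
        _ = Q ^ 4 := by ring
        _ ≤ M := hQ4.trans hNM)
    push_cast at this ⊢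
    exact this
  have hYN : (N : ℝ) / Q ^ 4 ≤ ((M / Q ^ 3 : ℕ) : ℝ) := by
    refine le_trans ?_ hYlow
    rw [div_le_div_iff₀ (by positivity) (by positivity)]
    have : (N : ℝ) * (2 * Q ^ 3) ≤ M * (Q * Q ^ 3) := by
      apply mul_le_mul hNMr _ (by positivity) hM0.le
      apply mul_le_mul_of_nonneg_right (by linarith) (by positivity)
    calc (N : ℝ) * (2 * Q ^ 3) ≤ M * (Q * Q ^ 3) := this
      _ = M * Q ^ 4 := by ring
  have hnr1 : ((M / Q ^ 3 : ℕ) : ℝ) ≤ n := by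
    have := (Int.cast_le (R := ℝ)).2 hn1
    rwa [Int.cast_natCast] at this
  have hnr2 : (n : ℝ) ≤ M := by exact_mod_cast hn2
  have hYpos : 1 ≤ M / Q ^ 3 := by
    rw [Nat.one_le_div_iff (by positivity)]
    exact (Nat.pow_le_pow_right (by omega) (by norm_num)).trans (hQ4.trans hNM)
  have hn1' : (1 : ℝ) ≤ n := le_trans (by exact_mod_cast hYpos) hnr1
  refine (rpow_lip hn1' hN1 hη).trans ?_
  rw [hθ]
  have e1 : Real.log N - 4 * Real.log Q ≤ Real.log n := by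
    have h2 : Real.log ((N : ℝ) / Q ^ 4) ≤ Real.log n := Real.log_le_log (by positivity) (hYN.trans hnr1)
    rw [Real.log_div (by positivity) (by positivity), Real.log_pow] at h2
    push_cast at h2
    exact h2
  have e2 : Real.log n ≤ Real.log N + Real.log Q := by
    have h2 : Real.log n ≤ Real.log ((Q : ℝ) * N) :=
      Real.log_le_log (by linarith) (hnr2.trans (by exact_mod_cast hMQN))
    rw [Real.log_mul (by positivity) (by positivity)] at h2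
    linarith
  have hlQ : 0 ≤ Real.log Q := Real.log_nonneg (by linarith)
  have e3 : |Real.log n - Real.log N| ≤ 4 * Real.log Q := by
    rw [abs_le]
    constructor <;> linarith
  calc η * |Real.log n - Real.log N| ≤ η * (4 * Real.log Q) := mul_le_mul_of_nonneg_left e3 hη
    _ = 4 * (η * Real.log Q) := by ring

/-- **the asymptotic formula at every scale**, with the exceptional zero in the main term -/
theorem everyEU (s : ℕ) (hs : 1 ≤ s) {ε : ℝ} (hε : 0 < ε) :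
    ∃ D : ℕ, 0 < D ∧ ∃ K : ℕ, 0 < K ∧ ∃ δ : ℝ, 0 < δ ∧ ∀ B : ℕ, ∀ κ : ℝ, 0 < κ → ∃ N0 : ℕ, ∀ N : ℕ, N0 ≤ N →
    ∃ j1 : PC, Real.log N ^ B ≤ ((j1.1 + 1 : ℕ) : ℝ) ∧ j1.2 ^ 2 = 1 ∧ ∃ y : ℝ, 0 ≤ y ∧ y ≤ 1 - (N : ℝ) ^ (-κ) ∧
      (y = 0 ∨ (j1.2.IsPrimitive ∧ j1.2 ≠ 1 ∧ ∃ β : ℝ, y = (N : ℝ) ^ (β - 1) ∧ j1.2.LFunction β = 0)) ∧
      ∀ A : ℕ, 1 ≤ A → (A + 1) ^ K ≤ N → PSPE s A ε δ j1 y N ∧
        PSPX s A ε δ (fun a h => ¬ ((j1.1 + 1 : ℕ) : ℤ) ∣ (D : ℤ) * (Del a h * ∏ i, a i)) N := by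
  classical
  have hsr : (1 : ℝ) ≤ s := by exact_mod_cast hs
  obtain ⟨ε0, hε0d⟩ : ∃ ε0 : ℝ, ε0 = min ε 1 := ⟨_, rfl⟩
  have hε00 : 0 < ε0 := by rw [hε0d]; exact lt_min hε one_pos
  have hε01 : ε0 ≤ 1 := by rw [hε0d]; exact min_le_right _ _
  have hε0ε : ε0 ≤ ε := by rw [hε0d]; exact min_le_left _ _
  have h2s : (1 : ℝ) ≤ 2 ^ s := one_le_pow₀ (by norm_num)
  have h4s : (1 : ℝ) ≤ 4 ^ s := one_le_pow₀ (by norm_num)
  obtain ⟨e, he⟩ : ∃ e : ℝ, e = ε0 / (80 * 2 ^ s) := ⟨_, rfl⟩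
  have he0 : 0 < e := by rw [he]; positivity
  have he1 : e ≤ 1 := by
    rw [he, div_le_one (by positivity)]
    linarith
  have hepow : (1 + e) ^ s - 1 ≤ ε0 / 80 := by
    refine (pow_one_small he0.le he1 s).trans ?_
    have h1 : e * (2 ^ s - 1) ≤ e * 2 ^ s := mul_le_mul_of_nonneg_left (by linarith) he0.le
    have h2 : e * 2 ^ s = ε0 / 80 := by rw [he]; field_simp
    linarith
  obtain ⟨θ0, hθ00, hθ08, Ld, hd⟩ := hd_mainE (s + 1) (by omega)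
  obtain ⟨θ1, hθ1⟩ : ∃ θ1 : ℝ, θ1 = min θ0 (min (e / 24) (ε0 / (320 * s * 4 ^ s))) := ⟨_, rfl⟩
  have hθ10 : 0 < θ1 := by rw [hθ1]; exact lt_min hθ00 (lt_min (by positivity) (by positivity))
  have hθ11 : θ1 ≤ θ0 := by rw [hθ1]; exact min_le_left _ _
  have hθ12 : θ1 ≤ e / 24 := by rw [hθ1]; exact (min_le_right _ _).trans (min_le_left _ _)
  have hθ13 : θ1 ≤ ε0 / (320 * s * 4 ^ s) := by rw [hθ1]; exact (min_le_right _ _).trans (min_le_right _ _)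
  obtain ⟨E0, hE0⟩ := exc_zero θ1 hθ10
  obtain ⟨E1, hE1⟩ := short_X
  obtain ⟨E2, hE2⟩ := unique_exc
  obtain ⟨E3, hE3⟩ := small_level
  obtain ⟨E, hE⟩ : ∃ E : ℕ, E = E0 + E1 + E2 + E3 := ⟨_, rfl⟩
  obtain ⟨ε', hε'⟩ : ∃ ε' : ℝ, ε' = ε0 / (80 * s * 4 ^ s) := ⟨_, rfl⟩
  have hε'0 : 0 < ε' := by rw [hε']; positivity
  have hε'1 : ε' ≤ 1 := by
    rw [hε', div_le_one (by positivity)]
    have : 1 ≤ (s : ℝ) * 4 ^ s := one_le_mul_of_one_le_of_one_le hsr h4s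
    linarith
  have hpow : (3 + ε') ^ s - 3 ^ s ≤ ε0 / 80 := by
    refine (pow_three_small hε'0.le hε'1 s).trans (le_of_eq ?_)
    rw [hε']
    field_simp
  obtain ⟨L0, Q1, hQ1⟩ := hE1 E (by omega) ε' hε'0
  obtain ⟨k1, hk1⟩ := exists_nat_ge (160 * (s : ℝ) / ε0)
  obtain ⟨k2, hk2⟩ := exists_nat_ge (24 / e)
  obtain ⟨L1, hL1⟩ : ∃ L1 : ℕ, L1 = lE s + k1 + k2 + L0 + Ld + 6 := ⟨_, rfl⟩
  obtain ⟨L2, hL2⟩ : ∃ L2 : ℕ, L2 = 2 * L1 := ⟨_, rfl⟩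
  have hL1κ : 160 * (s : ℝ) ≤ ε0 * L1 := by
    have h1 : (k1 : ℝ) ≤ L1 := by exact_mod_cast (by omega : k1 ≤ L1)
    have h2 := hk1.trans h1
    rw [div_le_iff₀ hε00] at h2
    linarith
  have hL1e : 24 ≤ e * L1 := by
    have h1 : (k2 : ℝ) ≤ L1 := by exact_mod_cast (by omega : k2 ≤ L1)
    have h2 := hk2.trans h1
    rw [div_le_iff₀ he0] at h2
    linarith
  have hL1r : (2 : ℝ) ≤ L1 := by exact_mod_cast (by omega : 2 ≤ L1)
  obtain ⟨Q2, hQ2⟩ := fixed_scaleXU s hs hε00 hε01 L1 L2 (by omega) hL1κ (by omega)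
  obtain ⟨Q3, hQ3⟩ := hx_of_short (L0 := L0) (L2 := L2 + 1)
  obtain ⟨Q4, hQ4⟩ := fixed_scaleEU s hs hε00 hε01 L1 L2 (by omega) hL1κ (by omega)
  obtain ⟨Q5, hQ5⟩ := hd (L2 + 1)
  obtain ⟨kk, hkk⟩ := exists_nat_ge ((4 * (s : ℝ) / (ε0 / 10 / (8 * 3 ^ s))) ^ 2)
  obtain ⟨K0, hK0⟩ : ∃ K0 : ℕ, K0 = 8 + 2 * s + kk := ⟨_, rfl⟩
  have hKρ : (4 * (s : ℝ) / (ε0 / 10 / (8 * 3 ^ s))) ^ 2 ≤ K0 :=
    hkk.trans (by exact_mod_cast (by omega : kk ≤ K0))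
  refine ⟨K0.factorial, Nat.factorial_pos K0, 64 * (s + 2) ^ 2 * L2, by
    have : 0 < L2 := by omega
    positivity, 1 / (64 * L2), by
    have : (0 : ℝ) < L2 := by exact_mod_cast (by omega : 0 < L2)
    positivity, fun BB κ hκ => ?_⟩
  obtain ⟨Q6, hQ6⟩ := siegel_scale s hκ
  obtain ⟨Q7, hQ7⟩ := hE3 E (by omega) 44 (by norm_num) (BB + 1)
  obtain ⟨Q8, hQ8⟩ := exists_nat_ge (Real.exp ((2 * (L1 : ℝ)) ^ BB))
  obtain ⟨Qa, hQa⟩ : ∃ Qa : ℕ, Qa = Q1 + Q2 + Q3 + Q4 + Q5 + Q6 + Q7 + Q8 + 3 := ⟨_, rfl⟩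
  refine ⟨Qa ^ L1, fun N hN => ?_⟩
  obtain ⟨Q, hQQ, hN1, hN2⟩ := exists_Q (by omega) (by omega) hN
  rw [← hL2] at hN2
  have hQ3n : 3 ≤ Q := by omega
  have hQ3r : (3 : ℝ) ≤ Q := by exact_mod_cast hQ3n
  have hQ0 : (0 : ℝ) < Q := by linarith
  obtain ⟨X, hX⟩ : ∃ X : Finset PC, X = (fam Q).filter (fun j => ¬ NX 44 E Q j.2) := ⟨_, rfl⟩
  have hX1 : X ⊆ fam Q := by rw [hX]; exact filter_subset _ _
  have hXe : ∀ j ∈ X, j ∈ fam Q ∧ ¬ NX 44 E Q j.2 := by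
    intro j hj
    rw [hX, mem_filter] at hj
    exact hj
  have hX2 : X.card ≤ 1 := card_le_one.2 fun j hj l hl =>
    hE2 E (by omega) 44 Q (by norm_num) hQ3n j (hXe j hj).1 l (hXe l hl).1 (hXe j hj).2 (hXe l hl).2
  have hX3 : ∀ j ∈ X, j.2 ≠ 1 ∧ j.2 ^ 2 = 1 := by
    intro j hj
    have h1 := (hXe j hj).2
    unfold NX at h1
    push Not at h1
    exact ⟨h1.1, h1.2.1⟩
  have hN1n : 1 ≤ N := le_trans (Nat.one_le_pow _ _ (by omega)) hN1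
  have hN1r : (1 : ℝ) ≤ N := by exact_mod_cast hN1n
  have hN0 : (0 : ℝ) < N := by linarith
  obtain ⟨b, hb0, hbs, hb⟩ := hQ1 Q (by omega)
  have hp' : ∀ A : ℕ, 1 ≤ A → (A + 1) ^ (64 * (s + 2) ^ 2 * L2) ≤ N →
      PSPX s A ε (1 / (64 * L2)) (fun a h => ∀ j ∈ X, ¬ ((j.1 + 1 : ℕ) : ℤ) ∣ (K0.factorial : ℤ) * (Del a h * ∏ i, a i)) N := by
    intro A hA hAN
    obtain ⟨hAQ, hA4⟩ := scale_A (L2 := L2) (by omega) hAN hN2
    have hNM : N ≤ (4 * A + 1) * N := Nat.le_mul_of_pos_left N (by omega)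
    have hw := hQ3 Q (by omega) X hX1 hX2 (fun j hj => (hX3 j hj).1) b hb0 (hbs.trans hε'1) (by
      intro j hj hjX
      apply hb j hj
      by_contra hc
      apply hjX
      rw [hX, mem_filter]
      exact ⟨hj, hc⟩) ((4 * A + 1) * N)
      (((Nat.pow_le_pow_right (by omega) (by omega : L0 + 6 ≤ L1)).trans hN1).trans hNM) (by
        calc (4 * A + 1) * N ≤ Q * Q ^ L2 := Nat.mul_le_mul hA4 hN2
          _ = Q ^ (L2 + 1) := by ring)
    have hp := hQ2 Q (by omega) A hA hAQ N hN1 hN2 b X hw (fun j hj => (hX3 j hj).2) ε' hbs hpow hε'1 K0 (by omega) (by omega)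
      hKρ
    exact PSPX_eps hε00 hε0ε hp
  rcases X.eq_empty_or_nonempty with hXE | hXne
  · obtain ⟨r, hr⟩ := exists_nat_ge (Real.log N ^ BB)
    have hXt : ∀ (a h : Fin s → ℤ), ∀ j ∈ X, ¬ ((j.1 + 1 : ℕ) : ℤ) ∣ (K0.factorial : ℤ) * (Del a h * ∏ i, a i) := by
      intro a h j hj
      rw [hXE] at hj
      exact absurd hj (notMem_empty j)
    refine ⟨⟨r, 1⟩, hr.trans (by push_cast; linarith), one_pow 2, 0, le_rfl, ?_, Or.inl rfl, fun A hA hAN =>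
      ⟨PSPE_of_PSPX _ hXt (hp' A hA hAN), PSPX_mono (fun a h _ => hXt a h) (hp' A hA hAN)⟩⟩
    have := Real.rpow_le_one_of_one_le_of_nonpos hN1r (by linarith : -κ ≤ 0)
    linarith
  · obtain ⟨j1, hj1⟩ := hXne
    obtain ⟨hjf, hjn⟩ := hXe j1 hj1
    obtain ⟨hj11, hj12⟩ := hX3 j1 hj1
    have hjm := mem_fam.1 hjf
    obtain ⟨β, hb1, hLb, hθb⟩ := hE0 E (by omega) 44 Q (by norm_num) hQ3n (j1.1 + 1) hjm.1 j1.2 hjn
    obtain ⟨g1, g2, g3⟩ := hQ6 Q (by omega) j1 hjf hj11 hj12 β hb1 hLb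
    obtain ⟨θ, hθ⟩ : ∃ θ : ℝ, θ = (1 - β) * Real.log Q := ⟨_, rfl⟩
    have hθe : θ ≤ e / 24 := by rw [hθ]; exact hθb.trans hθ12
    have hθhalf : θ ≤ 1 / 2 := by linarith
    have hθle1 : θ ≤ 1 := by linarith
    have hd1 := hQ5 Q (by omega) j1 hjf hj11 hj12 β hb1 hLb (hθb.trans hθ11) (g2 (by rw [← hθ]; exact hθle1))
    rw [← hθ] at g1 g3 hθb hd1
    have hθ0 : 0 < θ := lt_of_lt_of_le (Real.rpow_pos_of_pos hQ0 _) g1
    have hη0 : 0 ≤ 1 - β := by linarith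
    obtain ⟨B, hBs, hB⟩ := hd1
    obtain ⟨y, hy⟩ : ∃ y : ℝ, y = (N : ℝ) ^ (-(1 - β)) := ⟨_, rfl⟩
    have hy0 : 0 < y := by rw [hy]; exact Real.rpow_pos_of_pos hN0 _
    have hyu : y * (1 + L1 * θ) ≤ 1 := by rw [hy]; exact y_upper (by omega) hN1 hη0 hθ
    -- `y ≤ 1 - θ`
    have hL1θ : 0 < (L1 : ℝ) * θ := by positivity
    have hyθ : θ ≤ 1 - y := by
      have h1 : 1 ≤ (1 - θ) * (1 + L1 * θ) := by
        have h2 : L1 * θ * θ ≤ L1 * θ * (1 / 2) := mul_le_mul_of_nonneg_left hθhalf hL1θ.le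
        have h3 : 2 * θ ≤ L1 * θ := mul_le_mul_of_nonneg_right hL1r hθ0.le
        have h4 : (1 - θ) * (1 + L1 * θ) = 1 + L1 * θ - θ - L1 * θ * θ := by ring
        rw [h4]
        linarith
      have h5 : y * (1 + L1 * θ) ≤ (1 - θ) * (1 + L1 * θ) := hyu.trans h1
      have h6 := le_of_mul_le_mul_right h5 (by linarith)
      linarith
    have hy1 : y ≤ 1 := by linarith
    have hye12 : 12 * θ ≤ e * (1 - y) := by
      have h1 : 12 * θ * (1 + L1 * θ) ≤ e * (1 - y) * (1 + L1 * θ) := by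
        have h2 : e * (L1 * θ) ≤ e * (1 - y) * (1 + L1 * θ) := by
          have h3 : L1 * θ ≤ (1 - y) * (1 + L1 * θ) := by
            have : (1 - y) * (1 + L1 * θ) = 1 + L1 * θ - y * (1 + L1 * θ) := by ring
            rw [this]
            linarith
          calc e * (L1 * θ) ≤ e * ((1 - y) * (1 + L1 * θ)) := mul_le_mul_of_nonneg_left h3 he0.le
            _ = _ := by ring
        have h4 : 12 * θ ≤ (e * L1) / 2 * θ := mul_le_mul_of_nonneg_right (by linarith) hθ0.le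
        have h5 : 12 * θ * (L1 * θ) ≤ e / 2 * (L1 * θ) := mul_le_mul_of_nonneg_right (by linarith) hL1θ.le
        have h6 : 12 * θ * (1 + L1 * θ) = 12 * θ + 12 * θ * (L1 * θ) := by ring
        rw [h6]
        linarith
      exact le_of_mul_le_mul_right h1 (by linarith)
    have hθs1 : θ ^ s ≤ 1 := pow_le_one₀ hθ0.le hθle1
    have hθs0 : 0 < θ ^ s := by positivity
    have hθss : θ ^ (s + 1) ≤ θ := by
      rw [pow_succ]
      calc θ ^ s * θ ≤ 1 * θ := mul_le_mul_of_nonneg_right hθs1 hθ0.le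
        _ = θ := one_mul θ
    have hθys : θ ^ s ≤ (1 - y) ^ s := pow_le_pow_left₀ hθ0.le hyθ s
    have hε1 : 2 * θ ^ (s + 1) ≤ 1 := by linarith
    have hθs4 : θ * (320 * s * 4 ^ s) ≤ ε0 := by
      have := hθb.trans hθ13
      rwa [le_div_iff₀ (by positivity)] at this
    have hε3 : (3 + 2 * θ ^ (s + 1)) ^ s - 3 ^ s ≤ (1 - y) ^ s * (ε0 / 160) := by
      refine (pow_three_small (by positivity) hε1 s).trans ?_
      calc (s : ℝ) * (2 * θ ^ (s + 1)) * 4 ^ s = θ ^ s * (θ * (320 * s * 4 ^ s) / 160) := by ring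
        _ ≤ θ ^ s * (ε0 / 160) := mul_le_mul_of_nonneg_left (by linarith) hθs0.le
        _ ≤ (1 - y) ^ s * (ε0 / 160) := mul_le_mul_of_nonneg_right hθys (by positivity)
    have hqq : 1 ≤ (1 - y) ^ s * qq Q := by
      have hq1 : 1 ≤ qq Q := qq_ge (by omega)
      refine g3.trans (mul_le_mul_of_nonneg_right ?_ (by linarith))
      refine le_trans ?_ hθys
      exact pow_le_pow_left₀ (by positivity) (by linarith) s
    have hlev : Real.log N ^ BB ≤ ((j1.1 + 1 : ℕ) : ℝ) := by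
      obtain ⟨ℓ, hℓ⟩ : ∃ ℓ : ℝ, ℓ = Real.log Q := ⟨_, rfl⟩
      have hlev : Real.log Q ^ (BB + 1) ≤ ((j1.1 + 1 : ℕ) : ℝ) := by
        by_contra hc
        push Not at hc
        have hprim := (mem_fam.1 (hXe j1 hj1).1).2
        exact (hXe j1 hj1).2 (hQ7 Q (by omega) (j1.1 + 1) hc.le j1.2 hprim)
      have hlN : Real.log N ≤ 2 * L1 * ℓ := by
        have h1 : Real.log N ≤ Real.log ((Q : ℝ) ^ L2) := Real.log_le_log hN0 (by exact_mod_cast hN2)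
        rw [Real.log_pow, ← hℓ, hL2] at h1
        push_cast at h1
        exact h1
      have hℓ2 : (2 * (L1 : ℝ)) ^ BB ≤ ℓ := by
        rw [hℓ, Real.le_log_iff_exp_le hQ0]
        exact hQ8.trans (by exact_mod_cast (by omega : Q8 ≤ Q))
      have hℓ0 : 0 ≤ ℓ := le_trans (by positivity) hℓ2
      calc Real.log N ^ BB ≤ (2 * L1 * ℓ) ^ BB := pow_le_pow_left₀ (Real.log_natCast_nonneg N) hlN BB
        _ = (2 * (L1 : ℝ)) ^ BB * ℓ ^ BB := by rw [mul_pow]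
        _ ≤ ℓ * ℓ ^ BB := mul_le_mul_of_nonneg_right hℓ2 (by positivity)
        _ = ℓ ^ (BB + 1) := by ring
        _ ≤ _ := by rw [hℓ]; exact hlev
    refine ⟨j1, hlev, hj12, y, hy0.le, ?_, Or.inr ⟨hjm.2, hj11, β, ?_, hLb⟩, fun A hA hAN => ⟨?_, ?_⟩⟩
    · have h1 : (N : ℝ) ^ (-κ) ≤ θ := by
        refine le_trans ?_ g1
        apply Real.rpow_le_rpow_of_nonpos hQ0 _ (by linarith)
        exact_mod_cast (Nat.le_self_pow (by omega) Q).trans hN1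
      linarith
    · rw [hy]
      congr 1
      ring
    · obtain ⟨hAQ, hA4⟩ := scale_A (L2 := L2) (by omega) hAN hN2
      have hNM : N ≤ (4 * A + 1) * N := Nat.le_mul_of_pos_left N (by omega)
      have hMup : (4 * A + 1) * N ≤ Q ^ (L2 + 1) := by
        calc (4 * A + 1) * N ≤ Q * Q ^ L2 := Nat.mul_le_mul hA4 hN2
          _ = Q ^ (L2 + 1) := by ring
      have hHE := hB ((4 * A + 1) * N)
        (((Nat.pow_le_pow_right (by omega) (by omega : Ld + 6 ≤ L1)).trans hN1).trans hNM) hMup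
      have hp := hQ4 Q (by omega) A hA hAQ N hN1 hN2 B j1 (θ / 4) (1 - β) hHE hj12 (by positivity) (2 * θ ^ (s + 1)) hBs
        hε1 y e (4 * θ) hy0.le hy1 he0.le (by linarith) (fun n hn1 hn2 => by
          rw [hy]
          exact y_near hQ3n hA4 (by omega) hN1 hη0 hθ n hn1 hn2) hepow hε3 hqq
      exact PSPE_eps hε00 hε0ε hp
    · refine PSPX_mono (fun a h hnd => ?_) (hp' A hA hAN)
      intro j hj
      have : j = j1 := card_le_one.1 hX2 j hj j1 hj1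
      rw [this]
      exact hnd

end Pool.Agent.Helper86.EA
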