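import Pool.Agent.Helper86.EA.E8

set_option autoImplicit false

/-!
# Every scale, coefficients up to a power of the scale, the exceptional zero in the main term
-/

open Finset Filter Topology

namespace Pool.Agent.Helper86.EA

open Pool.Agent.H807R2.Dav hiding KK
open Pool.Agent.Helper86.PS
open Pool.Agent.Helper86.XS
open Pool.Agent.Helper86.DZ
open Pool.Agent.Helper86.UA

theorem everyA (s : ℕ) (hs : 1 ≤ s) {ε : ℝ} (hε : 0 < ε) :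
    ∃ D : ℕ, 0 < D ∧ ∃ δ : ℝ, 0 < δ ∧ ∃ c : ℝ, 0 < c ∧ ∀ B : ℕ, ∀ κ : ℝ, 0 < κ → ∃ N0 : ℕ, ∀ N : ℕ, N0 ≤ N →
    ∃ j1 : PC, Real.log N ^ B ≤ ((j1.1 + 1 : ℕ) : ℝ) ∧ j1.2 ^ 2 = 1 ∧ ∃ y : ℝ, 0 ≤ y ∧ y ≤ 1 - (N : ℝ) ^ (-κ) ∧
      (y = 0 ∨ (j1.2.IsPrimitive ∧ j1.2 ≠ 1 ∧ ∃ β : ℝ, y = (N : ℝ) ^ (β - 1) ∧ j1.2.LFunction β = 0)) ∧
    ∀ a : Fin s → ℤ, (∀ i, a i ≠ 0 ∧ ((|a i| : ℤ) : ℝ) ≤ (N : ℝ) ^ δ) →
    ∃ E : Finset (Fin s → ℤ), (E.card : ℝ) ≤ (N : ℝ) ^ ((s : ℝ) - 1 - δ) ∧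
    ∀ h : Fin s → ℤ, (∀ i, ((|h i| : ℤ) : ℝ) ≤ (N : ℝ) ^ (1 + δ)) → (∀ e ∈ E, ∀ t : ℤ, h ≠ e + t • a) →
    (∀ p : ℕ, p.Prime → nuP a h p < p) →
    (1 - y) ^ s ≤ twA j1 y a h ∧ twA j1 y a h ≤ 2 ^ s ∧
    ∃ S : ℝ, HasProd (fun p : Nat.Primes => facP a h (p : ℕ)) S ∧ c ≤ S ∧ ∀ u v : ℤ, -(N : ℤ) ≤ u → v ≤ N →
      (N : ℝ) ^ (1 - δ) ≤ ((v - u : ℤ) : ℝ) → (∀ n ∈ Ico u v, ∀ i, 1 ≤ a i * n + h i) →
      |(pc a h u v : ℝ) - twA j1 y a h * S * (((v - u : ℤ) : ℝ) / Real.log N ^ s)| ≤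
        ε * (twA j1 y a h * S * (((v - u : ℤ) : ℝ) / Real.log N ^ s)) ∧
      (¬ ((j1.1 + 1 : ℕ) : ℤ) ∣ (D : ℤ) * (Del a h * ∏ i, a i) →
        |(pc a h u v : ℝ) - S * (((v - u : ℤ) : ℝ) / Real.log N ^ s)| ≤ ε * (S * (((v - u : ℤ) : ℝ) / Real.log N ^ s))) := by
  classical
  obtain ⟨D, hD, K, hK, δ1, hδ1, h1⟩ := everyEU s hs hε
  have hK0 : (0 : ℝ) < K := by exact_mod_cast hK
  obtain ⟨δ, hδ⟩ : ∃ δ : ℝ, δ = min δ1 (1 / K) / 2 := ⟨_, rfl⟩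
  have hδ0 : 0 < δ := by
    have := lt_min hδ1 (by positivity : (0 : ℝ) < 1 / K)
    rw [hδ]; positivity
  have hδ1' : 2 * δ ≤ δ1 := by
    have f1 := min_le_left δ1 (1 / (K : ℝ))
    rw [hδ]; linarith
  have hδK : δ * K ≤ 1 / 2 := by
    have f1 := min_le_right δ1 (1 / (K : ℝ))
    have f2 : δ ≤ 1 / K / 2 := by rw [hδ]; linarith
    calc δ * K ≤ 1 / K / 2 * K := mul_le_mul_of_nonneg_right f2 hK0.le
      _ = 1 / 2 := by field_simp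
  have hcS := cS_pos s
  refine ⟨D, hD, δ, hδ0, cS s / 2, by positivity, fun B κ hκ => ?_⟩
  obtain ⟨N1, hN1⟩ := h1 B κ hκ
  obtain ⟨N3, hN3⟩ := ev_log 2 0 (a := δ) hδ0
  refine ⟨N1 + N3 + (3 ^ K) ^ 2 + 1, fun N hN => ?_⟩
  obtain ⟨j1, hr, hj2, y, hy0, hy1, hyβ, hP⟩ := hN1 N (by omega)
  have h3 := hN3 N (by omega)
  rw [pow_zero, mul_one] at h3
  have hN1r : (1 : ℝ) ≤ N := by exact_mod_cast (by omega : 1 ≤ N)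
  have hN0 : (0 : ℝ) < N := by linarith
  have hy1' : y ≤ 1 := by
    have := Real.rpow_nonneg hN0.le (-κ)
    linarith
  obtain ⟨A, hA⟩ : ∃ A : ℕ, A = ⌈(N : ℝ) ^ δ⌉₊ := ⟨_, rfl⟩
  have hA1 : 1 ≤ A := by
    rw [hA]
    exact Nat.ceil_pos.2 (Real.rpow_pos_of_pos hN0 _)
  have hAle : (N : ℝ) ^ δ ≤ A := by rw [hA]; exact Nat.le_ceil _
  have hAK : (A + 1) ^ K ≤ N := by
    have f1 : (A : ℝ) < (N : ℝ) ^ δ + 1 := by rw [hA]; exact Nat.ceil_lt_add_one (Real.rpow_nonneg hN0.le _)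
    have f2 : (A : ℝ) + 1 ≤ 3 * (N : ℝ) ^ δ := by linarith
    have f3 : ((A : ℝ) + 1) ^ K ≤ (3 * (N : ℝ) ^ δ) ^ K := pow_le_pow_left₀ (by positivity) f2 K
    have f4 : ((N : ℝ) ^ δ) ^ K ≤ √(N : ℝ) := by
      rw [← Real.rpow_natCast, ← Real.rpow_mul hN0.le, Real.sqrt_eq_rpow]
      exact Real.rpow_le_rpow_of_exponent_le hN1r hδK
    have f5 : (3 : ℝ) ^ K ≤ √(N : ℝ) := by
      apply Real.le_sqrt_of_sq_le
      have : (3 ^ K) ^ 2 ≤ N := by omega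
      exact_mod_cast this
    have f6 : ((A : ℝ) + 1) ^ K ≤ N := by
      calc ((A : ℝ) + 1) ^ K ≤ (3 * (N : ℝ) ^ δ) ^ K := f3
        _ = 3 ^ K * ((N : ℝ) ^ δ) ^ K := mul_pow _ _ _
        _ ≤ √(N : ℝ) * √(N : ℝ) := mul_le_mul f5 f4 (by positivity) (Real.sqrt_nonneg _)
        _ = N := Real.mul_self_sqrt hN0.le
    exact_mod_cast f6
  obtain ⟨hP1, hP2⟩ := hP A hA1 hAK
  refine ⟨j1, hr, hj2, y, hy0, hy1, hyβ, fun a ha => ?_⟩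
  have haA : ∀ i, a i ≠ 0 ∧ |a i| ≤ A := by
    intro i
    refine ⟨(ha i).1, ?_⟩
    have := (ha i).2.trans hAle
    exact_mod_cast this
  obtain ⟨E1, hE1, hE1'⟩ := hP1 a haA
  obtain ⟨E2, hE2, hE2'⟩ := hP2 a haA
  refine ⟨E1 ∪ E2, ?_, fun h hh hne hadm => ?_⟩
  · have e1 : ((E1 ∪ E2).card : ℝ) ≤ E1.card + E2.card := by exact_mod_cast card_union_le E1 E2
    have e2 : (N : ℝ) ^ ((s : ℝ) - 1 - δ1) ≤ (N : ℝ) ^ ((s : ℝ) - 1 - 2 * δ) :=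
      Real.rpow_le_rpow_of_exponent_le hN1r (by linarith)
    have e4 : (N : ℝ) ^ ((s : ℝ) - 1 - δ) = (N : ℝ) ^ δ * (N : ℝ) ^ ((s : ℝ) - 1 - 2 * δ) := by
      rw [← Real.rpow_add hN0]
      congr 1
      ring
    have e5 : 2 * (N : ℝ) ^ ((s : ℝ) - 1 - 2 * δ) ≤ (N : ℝ) ^ δ * (N : ℝ) ^ ((s : ℝ) - 1 - 2 * δ) :=
      mul_le_mul_of_nonneg_right h3 (Real.rpow_nonneg hN0.le _)
    rw [e4]
    linarith
  · have hhA : ∀ i, |h i| ≤ A * N := by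
      intro i
      have f1 := hh i
      rw [Real.rpow_add hN0, Real.rpow_one] at f1
      have f2 : ((|h i| : ℤ) : ℝ) ≤ A * N := by
        refine f1.trans ?_
        rw [mul_comm]
        exact mul_le_mul_of_nonneg_right hAle hN0.le
      exact_mod_cast f2
    obtain ⟨hA1', hA2'⟩ := twA_bounds (a := a) (h := h) (j1 := j1) hy0 hy1' (twG_nonempty (Nat.succ_pos _) (adm_of_nuP hadm))
    obtain ⟨S, hS, hS1⟩ := hE1' h hhA (fun e he => hne e (mem_union_left _ he)) hadm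
    have hcS' : cS s / 2 ≤ S := S_lower hadm hS
    have hlen : ∀ W : ℝ, (N : ℝ) ^ (1 - δ) ≤ W → (N : ℝ) ^ (1 - δ1) ≤ W := by
      intro W h5
      refine le_trans ?_ h5
      exact Real.rpow_le_rpow_of_exponent_le hN1r (by linarith)
    refine ⟨hA1', hA2', S, hS, hcS', fun u v hu hv hW hpos => ⟨hS1 u v hu hv (hlen _ hW) hpos, fun hPr => ?_⟩⟩
    obtain ⟨S', hS', hS2⟩ := hE2' h hhA (fun e he => hne e (mem_union_right _ he)) hadm hPr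
    have : S' = S := hS'.unique hS
    rw [this] at hS2
    exact hS2 u v hu hv (hlen _ hW) hpos

end Pool.Agent.Helper86.EA
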